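import Mathlib

/-!
# Power series solutions of Euclidean orbifold equations in one function field

`L` is a subfield, containing the constants, of the field of Laurent series.
-/

set_option autoImplicit false

namespace Pool.Agent.H734R3.PG

open PowerSeries

variable {k : Type*} [Field k]

/-- Laurent series, as fractions of power series -/
abbrev Om (k : Type*) [Field k] : Type _ := FractionRing (PowerSeries k)

/-- the power series `F` lies in the subfield `L` -/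
def InL (L : IntermediateField k (Om k)) (F : PowerSeries k) : Prop :=
  algebraMap (PowerSeries k) (Om k) F ∈ L

variable {L : IntermediateField k (Om k)}

theorem InL.add {F G : PowerSeries k} (hF : InL L F) (hG : InL L G) : InL L (F + G) := by
  unfold InL
  rw [map_add]
  exact L.add_mem hF hG

theorem InL.sub {F G : PowerSeries k} (hF : InL L F) (hG : InL L G) : InL L (F - G) := by
  unfold InL
  rw [map_sub]
  exact L.sub_mem hF hG

theorem InL.mul {F G : PowerSeries k} (hF : InL L F) (hG : InL L G) : InL L (F * G) := by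
  unfold InL
  rw [map_mul]
  exact L.mul_mem hF hG

theorem InL.pow {F : PowerSeries k} (hF : InL L F) (n : ℕ) : InL L (F ^ n) := by
  unfold InL
  rw [map_pow]
  exact pow_mem hF n

theorem inL_C (a : k) : InL L (C a) := by
  unfold InL
  have h : algebraMap (PowerSeries k) (Om k) (C a) = algebraMap k (Om k) a := by
    rw [IsScalarTower.algebraMap_apply k (PowerSeries k) (Om k)]
    rfl
  rw [h]
  exact L.algebraMap_mem a

theorem inL_one : InL L (1 : PowerSeries k) := by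
  have := inL_C (L := L) (1 : k)
  rwa [map_one] at this

theorem inL_two : InL L (2 : PowerSeries k) := by
  have := inL_C (L := L) (2 : k)
  rwa [map_ofNat] at this

theorem InL.inv {F : PowerSeries k} (hF : InL L F) (h0 : constantCoeff F ≠ 0) : InL L F⁻¹ := by
  unfold InL
  have h1 : algebraMap (PowerSeries k) (Om k) F⁻¹ = (algebraMap (PowerSeries k) (Om k) F)⁻¹ := by
    apply eq_inv_of_mul_eq_one_left
    rw [← map_mul, PowerSeries.inv_mul_cancel _ h0, map_one]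
  rw [h1]
  exact L.inv_mem hF

/-- a function field in one variable, with a place -/
def CurveL (L : IntermediateField k (Om k)) : Prop :=
  ∃ s : Finset (Om k), L = IntermediateField.adjoin k
      (insert (algebraMap (PowerSeries k) (Om k) X) (s : Set (Om k))) ∧
    ∀ y ∈ s, ∃ a : k, y ^ 2 = 1 + algebraMap k (Om k) a ^ 2 *
      algebraMap (PowerSeries k) (Om k) X ^ 2

/-- a solution with the prescribed value at the place -/
def PSol (L : IntermediateField k (Om k)) {q : ℕ} (N : Fin q → ℕ) (d : Fin q → k)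
    (l : PowerSeries k) : Prop :=
  InL L l ∧ constantCoeff l = 0 ∧ ∀ i, ∃ y, InL L y ∧ constantCoeff y = 1 ∧
    y ^ N i = 1 + C (d i) * l

/-- infinitely many solutions over one function field -/
def PEuclid (k : Type*) [Field k] {q : ℕ} (N : Fin q → ℕ) : Prop :=
  ∀ d : Fin q → k, ∃ L : IntermediateField k (Om k), CurveL L ∧ {l | PSol L N d l}.Infinite

theorem coeff_one_mul' (F G : PowerSeries k) : coeff 1 (F * G) =
    coeff 1 F * constantCoeff G + constantCoeff F * coeff 1 G := by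
  rw [PowerSeries.coeff_one_mul]
  ring

variable [CharZero k]

theorem cc2 : constantCoeff (2 : PowerSeries k) = 2 := map_ofNat _ 2

theorem exists_sqrt (F : PowerSeries k) (hF : constantCoeff F = 1) :
    ∃ β : PowerSeries k, β ^ 2 = F ∧ constantCoeff β = 1 := by
  have hmem : ∀ G : PowerSeries k, G ∈ Ideal.span {(X : PowerSeries k)} ↔ constantCoeff G = 0 := by
    intro G
    rw [Ideal.mem_span_singleton, PowerSeries.X_dvd_iff]
  have hmon : (Polynomial.X ^ 2 - Polynomial.C F : Polynomial (PowerSeries k)).Monic :=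
    Polynomial.monic_X_pow_sub_C F two_ne_zero
  obtain ⟨β, hβ, hβ1⟩ := (inferInstance :
    HenselianRing (PowerSeries k) (Ideal.span {(X : PowerSeries k)})).is_henselian _ hmon 1 (by
      rw [hmem]
      simp [hF]) (by
      have h2 : IsUnit (2 : PowerSeries k) := by
        rw [PowerSeries.isUnit_iff_constantCoeff, cc2]
        exact isUnit_iff_ne_zero.2 two_ne_zero
      have h3 : (Polynomial.eval 1 (Polynomial.derivative (Polynomial.X ^ 2 - Polynomial.C F :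
          Polynomial (PowerSeries k)))) = 2 := by
        simp
        norm_num
      rw [h3]
      exact h2.map (Ideal.Quotient.mk (Ideal.span {(X : PowerSeries k)})))
  refine ⟨β, ?_, ?_⟩
  · have : Polynomial.eval β (Polynomial.X ^ 2 - Polynomial.C F : Polynomial (PowerSeries k)) = 0 :=
      hβ
    simpa [sub_eq_zero] using this
  · rw [hmem] at hβ1
    simpa [sub_eq_zero] using hβ1

/-- the states of the iteration -/
structure St (L : IntermediateField k (Om k)) (a1 a2 a3 : k) (n : ℕ)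
    (Y1 Y2 Y3 T : PowerSeries k) : Prop where
  m1 : InL L Y1
  m2 : InL L Y2
  m3 : InL L Y3
  mT : InL L T
  c1 : constantCoeff Y1 = 1
  c2 : constantCoeff Y2 = 1
  c3 : constantCoeff Y3 = 1
  cT : constantCoeff T = 0
  d1 : coeff 1 Y1 = 0
  d2 : coeff 1 Y2 = 0
  d3 : coeff 1 Y3 = 0
  dT : coeff 1 T = 2 ^ n
  r12 : Y1 ^ 2 - Y2 ^ 2 = (C a1 ^ 2 - C a2 ^ 2) * T ^ 2
  r13 : Y1 ^ 2 - Y3 ^ 2 = (C a1 ^ 2 - C a3 ^ 2) * T ^ 2

theorem St.step {a1 a2 a3 : k} {n : ℕ} {Y1 Y2 Y3 T : PowerSeries k}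
    (h : St L a1 a2 a3 n Y1 Y2 Y3 T) :
    St L a1 a2 a3 (n + 1) (Y1 ^ 2 * Y2 ^ 2 + Y1 ^ 2 * Y3 ^ 2 - Y2 ^ 2 * Y3 ^ 2)
      (Y1 ^ 2 * Y2 ^ 2 + Y2 ^ 2 * Y3 ^ 2 - Y1 ^ 2 * Y3 ^ 2)
      (Y1 ^ 2 * Y3 ^ 2 + Y2 ^ 2 * Y3 ^ 2 - Y1 ^ 2 * Y2 ^ 2) (2 * Y1 * Y2 * Y3 * T) where
  m1 := (((h.m1.pow 2).mul (h.m2.pow 2)).add ((h.m1.pow 2).mul (h.m3.pow 2))).sub
    ((h.m2.pow 2).mul (h.m3.pow 2))
  m2 := (((h.m1.pow 2).mul (h.m2.pow 2)).add ((h.m2.pow 2).mul (h.m3.pow 2))).sub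
    ((h.m1.pow 2).mul (h.m3.pow 2))
  m3 := (((h.m1.pow 2).mul (h.m3.pow 2)).add ((h.m2.pow 2).mul (h.m3.pow 2))).sub
    ((h.m1.pow 2).mul (h.m2.pow 2))
  mT := (((inL_two.mul h.m1).mul h.m2).mul h.m3).mul h.mT
  c1 := by simp [h.c1, h.c2, h.c3]
  c2 := by simp [h.c1, h.c2, h.c3]
  c3 := by simp [h.c1, h.c2, h.c3]
  cT := by simp [h.cT]
  d1 := by simp [pow_two, coeff_one_mul', h.d1, h.d2, h.d3]
  d2 := by simp [pow_two, coeff_one_mul', h.d1, h.d2, h.d3]
  d3 := by simp [pow_two, coeff_one_mul', h.d1, h.d2, h.d3]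
  dT := by
    rw [coeff_one_mul', h.cT, h.dT]
    simp [h.c1, h.c2, h.c3, cc2]
    ring
  r12 := by linear_combination (4 * Y1 ^ 2 * Y2 ^ 2 * Y3 ^ 2) * h.r12
  r13 := by linear_combination (4 * Y1 ^ 2 * Y2 ^ 2 * Y3 ^ 2) * h.r13

/-- the solution obtained from a state -/
theorem St.sol {a1 a2 a3 : k} (h1 : a1 ≠ 0) (h2 : a2 ≠ 0) (h3 : a3 ≠ 0) {n : ℕ}
    {Y1 Y2 Y3 T : PowerSeries k} (h : St L a1 a2 a3 n Y1 Y2 Y3 T) (d : Fin 3 → k)
    (hd1 : d 0 * a1 ^ 2 = 1) (hd2 : d 1 * a2 ^ 2 = 1) (hd3 : d 2 * a3 ^ 2 = 1) :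
    ∃ l, PSol L ![2, 2, 2] d l ∧ coeff 1 l = -2 * a1 * a2 * a3 * 2 ^ n := by
  set W : PowerSeries k := Y1 ^ 2 - C a1 ^ 2 * T ^ 2 with hW
  have hW1 : Y1 ^ 2 = W + C a1 ^ 2 * T ^ 2 := by rw [hW]; ring
  have hW2 : Y2 ^ 2 = W + C a2 ^ 2 * T ^ 2 := by rw [hW]; linear_combination -h.r12
  have hW3 : Y3 ^ 2 = W + C a3 ^ 2 * T ^ 2 := by rw [hW]; linear_combination -h.r13
  have hWL : InL L W := (h.m1.pow 2).sub (((inL_C a1).pow 2).mul (h.mT.pow 2))
  have hW0 : constantCoeff W = 1 := by simp [hW, h.c1, h.cT]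
  have hWd : coeff 1 W = 0 := by
    simp [hW, pow_two, coeff_one_mul', h.c1, h.cT, h.d1]
  have hWi : W * W⁻¹ = 1 := PowerSeries.mul_inv_cancel _ (by rw [hW0]; exact one_ne_zero)
  have hWiL : InL L W⁻¹ := hWL.inv (by rw [hW0]; exact one_ne_zero)
  have hWi0 : constantCoeff W⁻¹ = 1 := by
    have := congrArg constantCoeff hWi
    rw [map_mul, hW0, one_mul, map_one] at this
    exact this
  have hWid : coeff 1 W⁻¹ = 0 := by
    have := congrArg (coeff 1) hWi
    rw [coeff_one_mul', hWd, hW0, zero_mul, zero_add, one_mul] at this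
    rw [this]
    simp [PowerSeries.coeff_one]
  set n1 : PowerSeries k := C a1 * Y2 * Y3 - C a2 * C a3 * Y1 * T with hn1
  set n2 : PowerSeries k := C a2 * Y1 * Y3 - C a1 * C a3 * Y2 * T with hn2
  set n3 : PowerSeries k := C a3 * Y1 * Y2 - C a1 * C a2 * Y3 * T with hn3
  have e12 : n1 ^ 2 - n2 ^ 2 = (C a1 ^ 2 - C a2 ^ 2) * W ^ 2 := by
    have e : n1 ^ 2 - n2 ^ 2 = (C a1 ^ 2 * Y2 ^ 2 - C a2 ^ 2 * Y1 ^ 2) *
      (Y3 ^ 2 - C a3 ^ 2 * T ^ 2) := by rw [hn1, hn2]; ring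
    rw [e, hW1, hW2, hW3]
    ring
  have e13 : n1 ^ 2 - n3 ^ 2 = (C a1 ^ 2 - C a3 ^ 2) * W ^ 2 := by
    have e : n1 ^ 2 - n3 ^ 2 = (C a1 ^ 2 * Y3 ^ 2 - C a3 ^ 2 * Y1 ^ 2) *
      (Y2 ^ 2 - C a2 ^ 2 * T ^ 2) := by rw [hn1, hn3]; ring
    rw [e, hW1, hW2, hW3]
    ring
  have hn1L : InL L n1 := (((inL_C a1).mul h.m2).mul h.m3).sub
    ((((inL_C a2).mul (inL_C a3)).mul h.m1).mul h.mT)
  have hn2L : InL L n2 := (((inL_C a2).mul h.m1).mul h.m3).sub
    ((((inL_C a1).mul (inL_C a3)).mul h.m2).mul h.mT)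
  have hn3L : InL L n3 := (((inL_C a3).mul h.m1).mul h.m2).sub
    ((((inL_C a1).mul (inL_C a2)).mul h.m3).mul h.mT)
  have hn10 : constantCoeff n1 = a1 := by simp [hn1, h.c2, h.c3, h.cT]
  have hn20 : constantCoeff n2 = a2 := by simp [hn2, h.c1, h.c3, h.cT]
  have hn30 : constantCoeff n3 = a3 := by simp [hn3, h.c1, h.c2, h.cT]
  have hn1d : coeff 1 n1 = -(a2 * a3 * 2 ^ n) := by
    simp [hn1, coeff_one_mul', h.c1, h.c2, h.c3, h.cT, h.d2, h.d3, h.dT]
  set l : PowerSeries k := (n1 * W⁻¹) ^ 2 - C a1 ^ 2 with hl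
  have hC : ∀ a : k, a ≠ 0 → ∀ x : k, x * a ^ 2 = 1 → (C a⁻¹ : PowerSeries k) ^ 2 = C x := by
    intro a ha x hx
    rw [← map_pow]
    congr 1
    field_simp
    rw [mul_comm]
    exact hx.symm
  have hCC : ∀ a : k, ∀ x : k, x * a ^ 2 = 1 → (C x : PowerSeries k) * C a ^ 2 = 1 := by
    intro a x hx
    rw [← map_pow, ← map_mul, hx, map_one]
  have hWi2 : W ^ 2 * W⁻¹ ^ 2 = 1 := by rw [← mul_pow, hWi, one_pow]
  refine ⟨l, ⟨((hn1L.mul hWiL).pow 2).sub ((inL_C a1).pow 2), ?_, ?_⟩, ?_⟩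
  · simp [hl, hn10, hWi0]
  · intro i
    fin_cases i
    · refine ⟨C a1⁻¹ * (n1 * W⁻¹), (inL_C _).mul (hn1L.mul hWiL), ?_, ?_⟩
      · simp [hn10, hWi0, h1]
      · show (C a1⁻¹ * (n1 * W⁻¹)) ^ 2 = 1 + C (d 0) * l
        rw [mul_pow, hC a1 h1 _ hd1, hl]
        linear_combination hCC a1 _ hd1
    · refine ⟨C a2⁻¹ * (n2 * W⁻¹), (inL_C _).mul (hn2L.mul hWiL), ?_, ?_⟩
      · simp [hn20, hWi0, h2]
      · show (C a2⁻¹ * (n2 * W⁻¹)) ^ 2 = 1 + C (d 1) * l
        rw [mul_pow, hC a2 h2 _ hd2, hl]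
        linear_combination hCC a2 _ hd2 - C (d 1) * W⁻¹ ^ 2 * e12 -
          C (d 1) * (C a1 ^ 2 - C a2 ^ 2) * hWi2
    · refine ⟨C a3⁻¹ * (n3 * W⁻¹), (inL_C _).mul (hn3L.mul hWiL), ?_, ?_⟩
      · simp [hn30, hWi0, h3]
      · show (C a3⁻¹ * (n3 * W⁻¹)) ^ 2 = 1 + C (d 2) * l
        rw [mul_pow, hC a3 h3 _ hd3, hl]
        linear_combination hCC a3 _ hd3 - C (d 2) * W⁻¹ ^ 2 * e13 -
          C (d 2) * (C a1 ^ 2 - C a3 ^ 2) * hWi2
  · have h5 : coeff 1 (C a1 ^ 2 : PowerSeries k) = 0 := by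
      rw [← map_pow, PowerSeries.coeff_C]
      simp
    rw [hl, map_sub, h5, pow_two, coeff_one_mul', coeff_one_mul', map_mul, hn10, hWi0, hn1d, hWid]
    ring

variable [IsAlgClosed k]

theorem peuclid222 : PEuclid k ![2, 2, 2] := by
  classical
  intro d0
  -- make all `d i` nonzero
  set d : Fin 3 → k := fun i => if d0 i = 0 then 1 else d0 i with hd
  have hdne : ∀ i, d i ≠ 0 := by
    intro i
    simp only [hd]
    split_ifs with h
    · exact one_ne_zero
    · exact h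
  have ha : ∀ i, ∃ a : k, a ^ 2 = (d i)⁻¹ := fun i => IsAlgClosed.exists_pow_nat_eq _ (by norm_num)
  choose a ha using ha
  have hda : ∀ i, d i * a i ^ 2 = 1 := fun i => by rw [ha, mul_inv_cancel₀ (hdne i)]
  have ha0 : ∀ i, a i ≠ 0 := by
    intro i h
    have := hda i
    rw [h] at this
    simp at this
  have hβ : ∀ i, ∃ β : PowerSeries k, β ^ 2 = 1 + C (a i) ^ 2 * X ^ 2 ∧ constantCoeff β = 1 :=
    fun i => exists_sqrt _ (by simp)
  choose β hβ hβ1 using hβ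
  set τ : Om k := algebraMap (PowerSeries k) (Om k) X with hτ
  set s : Finset (Om k) := Finset.univ.image fun i => algebraMap (PowerSeries k) (Om k) (β i)
    with hs
  set L : IntermediateField k (Om k) := IntermediateField.adjoin k
    (insert τ (s : Set (Om k))) with hL
  have hXL : InL L (X : PowerSeries k) :=
    IntermediateField.subset_adjoin k _ (Set.mem_insert _ _)
  have hβL : ∀ i, InL L (β i) := fun i =>
    IntermediateField.subset_adjoin k _ (Set.mem_insert_of_mem _ (by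
      simp only [hs, Finset.coe_image, Finset.coe_univ, Set.image_univ]
      exact ⟨i, rfl⟩))
  have hβd : ∀ i, coeff 1 (β i) = 0 := by
    intro i
    have h1 := congrArg (coeff 1) (hβ i)
    rw [pow_two, coeff_one_mul', hβ1] at h1
    have h2 : coeff 1 (1 + C (a i) ^ 2 * X ^ 2 : PowerSeries k) = 0 := by
      rw [← map_pow, map_add, PowerSeries.coeff_C_mul, PowerSeries.coeff_X_pow,
        PowerSeries.coeff_one]
      simp
    rw [h2] at h1
    have h3 : 2 * coeff 1 (β i) = 0 := by linear_combination h1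
    exact (mul_eq_zero.1 h3).resolve_left two_ne_zero
  refine ⟨L, ⟨s, rfl, ?_⟩, ?_⟩
  · intro y hy
    obtain ⟨i, -, rfl⟩ := Finset.mem_image.1 hy
    refine ⟨a i, ?_⟩
    rw [← map_pow, hβ, map_add, map_one, map_mul, map_pow, map_pow]
    have h4 : algebraMap (PowerSeries k) (Om k) (C (a i)) = algebraMap k (Om k) (a i) := by
      rw [IsScalarTower.algebraMap_apply k (PowerSeries k) (Om k)]
      rfl
    rw [h4]
  · have hst : ∀ n, ∃ Y1 Y2 Y3 T, St L (a 0) (a 1) (a 2) n Y1 Y2 Y3 T := by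
      intro n
      induction n with
      | zero =>
        refine ⟨β 0, β 1, β 2, X, hβL 0, hβL 1, hβL 2, hXL, hβ1 0, hβ1 1, hβ1 2, by simp, hβd 0,
          hβd 1, hβd 2, by simp, ?_, ?_⟩
        · rw [hβ, hβ]
          ring
        · rw [hβ, hβ]
          ring
      | succ n ih =>
        obtain ⟨Y1, Y2, Y3, T, h⟩ := ih
        exact ⟨_, _, _, _, h.step⟩
    have hsol : ∀ n : ℕ, ∃ l, PSol L ![2, 2, 2] d l ∧
        coeff 1 l = -2 * a 0 * a 1 * a 2 * 2 ^ n := by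
      intro n
      obtain ⟨Y1, Y2, Y3, T, h⟩ := hst n
      exact h.sol (ha0 0) (ha0 1) (ha0 2) d (hda 0) (hda 1) (hda 2)
    choose l hl hlc using hsol
    have hinj : Function.Injective l := by
      intro m n h
      have h1 := hlc m
      rw [h, hlc n] at h1
      have h2 : (-2 * a 0 * a 1 * a 2 : k) ≠ 0 :=
        mul_ne_zero (mul_ne_zero (mul_ne_zero (by norm_num) (ha0 0)) (ha0 1)) (ha0 2)
      have h3 : (2 : k) ^ n = 2 ^ m := mul_left_cancel₀ h2 h1
      have h4 : (2 ^ n : ℕ) = 2 ^ m := by exact_mod_cast h3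
      exact (Nat.pow_right_injective le_rfl h4).symm
    refine (Set.infinite_range_of_injective hinj).mono ?_
    rintro _ ⟨n, rfl⟩
    obtain ⟨h1, h2, h3⟩ := hl n
    refine ⟨h1, h2, fun i => ?_⟩
    by_cases h : d0 i = 0
    · refine ⟨1, inL_one, by simp, ?_⟩
      rw [h]
      simp
    · obtain ⟨y, hy, hy1, hy2⟩ := h3 i
      refine ⟨y, hy, hy1, ?_⟩
      rw [hy2]
      have : d i = d0 i := if_neg h
      rw [this]

end Pool.Agent.H734R3.PG
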