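import Mathlib
import Pool.Agent.H734R3.PG.Series

/-!
# The types `(N)`, `(3,3)` and `(4,2)`
-/

set_option autoImplicit false

namespace Pool.Agent.H734R3.PG

open PowerSeries

variable {k : Type*} [Field k]

theorem curveL_X : CurveL (IntermediateField.adjoin k {algebraMap (PowerSeries k) (Om k) X}) :=
  ⟨∅, by simp, by simp⟩

theorem coeff_one_pow (F : PowerSeries k) (h : constantCoeff F = 1) (N : ℕ) :
    coeff 1 (F ^ N) = N * coeff 1 F := by
  induction N with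
  | zero => simp [PowerSeries.coeff_one]
  | succ N ih =>
    rw [pow_succ, coeff_one_mul', ih, map_pow, h, one_pow]
    push_cast
    ring

theorem fin_pow (A : PowerSeries k) {N : ℕ} (hN : N ≠ 0) : {F : PowerSeries k | F ^ N = A}.Finite := by
  classical
  have hne : (Polynomial.X ^ N - Polynomial.C A : Polynomial (PowerSeries k)) ≠ 0 :=
    Polynomial.X_pow_sub_C_ne_zero (Nat.pos_of_ne_zero hN) A
  refine (Polynomial.X ^ N - Polynomial.C A :
    Polynomial (PowerSeries k)).roots.toFinset.finite_toSet.subset ?_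
  intro x hx
  simp only [Finset.mem_coe, Multiset.mem_toFinset]
  rw [Polynomial.mem_roots hne]
  simpa [sub_eq_zero] using hx

variable [CharZero k]

theorem peuclid1 {N : ℕ} (hN : N ≠ 0) : PEuclid k ![N] := by
  intro d
  set L : IntermediateField k (Om k) :=
    IntermediateField.adjoin k {algebraMap (PowerSeries k) (Om k) X} with hL
  have hX : InL L (X : PowerSeries k) := IntermediateField.mem_adjoin_simple_self k _
  refine ⟨L, curveL_X, ?_⟩
  by_cases hd : d 0 = 0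
  · have hinj : Function.Injective fun n : ℕ => (C (n : k) * X : PowerSeries k) := by
      intro m n h
      have h1 := congrArg (coeff 1) h
      simp only [PowerSeries.coeff_C_mul, PowerSeries.coeff_one_X, mul_one] at h1
      exact_mod_cast h1
    refine (Set.infinite_range_of_injective hinj).mono ?_
    rintro _ ⟨n, rfl⟩
    refine ⟨(inL_C _).mul hX, by simp, fun i => ⟨1, inL_one, by simp, ?_⟩⟩
    have hi : i = 0 := Subsingleton.elim _ _
    rw [hi, hd]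
    simp
  · have hinj : Function.Injective fun n : ℕ =>
        (C (d 0)⁻¹ * ((1 + C (n : k) * X) ^ N - 1) : PowerSeries k) := by
      intro m n h
      have h1 := congrArg (coeff 1) h
      have h2 : ∀ n : ℕ, coeff 1 ((1 + C (n : k) * X) ^ N : PowerSeries k) = N * n := by
        intro n
        rw [coeff_one_pow _ (by simp)]
        simp [PowerSeries.coeff_one, PowerSeries.coeff_C_mul, PowerSeries.coeff_one_X]
      simp only [PowerSeries.coeff_C_mul, map_sub, h2] at h1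
      have h3 := mul_left_cancel₀ (inv_ne_zero hd) h1
      have h4 : (N : k) * m = N * n := by linear_combination h3
      have h5 := mul_left_cancel₀ (Nat.cast_ne_zero.2 hN) h4
      exact_mod_cast h5
    refine (Set.infinite_range_of_injective hinj).mono ?_
    rintro _ ⟨n, rfl⟩
    have h1 : InL L (1 + C (n : k) * X) := inL_one.add ((inL_C _).mul hX)
    refine ⟨(inL_C _).mul ((h1.pow N).sub inL_one), by simp, fun i =>
      ⟨1 + C (n : k) * X, h1, by simp, ?_⟩⟩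
    have hi : i = 0 := Subsingleton.elim _ _
    rw [hi]
    show (1 + C (n : k) * X) ^ N = 1 + C (d 0) * (C (d 0)⁻¹ * ((1 + C (n : k) * X) ^ N - 1))
    rw [← mul_assoc, ← map_mul, mul_inv_cancel₀ hd, map_one]
    ring

/-- reduction to the nondegenerate case -/
theorem peuclid_pair {N0 N1 M : ℕ} (hM : M * N1 = N0)
    (H : ∀ d1 d2 : k, d1 ≠ 0 → d2 ≠ 0 → d1 ≠ d2 → ∃ L : IntermediateField k (Om k), CurveL L ∧
      {l | PSol L ![N0, N1] ![d1, d2] l}.Infinite) : PEuclid k ![N0, N1] := by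
  intro d
  have main : ∀ d1 d2 : k, d1 ≠ 0 → d2 ≠ 0 → d1 ≠ d2 → (d 0 = 0 ∨ d 0 = d1) →
      (d 1 = 0 ∨ d 1 = d2 ∨ (d 1 = d 0 ∧ d 0 = d1)) → ∃ L : IntermediateField k (Om k),
      CurveL L ∧ {l | PSol L ![N0, N1] d l}.Infinite := by
    intro d1 d2 h1 h2 h12 g1 g2
    obtain ⟨L, hL, hinf⟩ := H d1 d2 h1 h2 h12
    refine ⟨L, hL, hinf.mono ?_⟩
    rintro l ⟨a1, a2, a3⟩
    refine ⟨a1, a2, fun i => ?_⟩
    obtain ⟨y1, b1, b2, b3⟩ := a3 0
    obtain ⟨y2, c1, c2, c3⟩ := a3 1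
    have b3' : y1 ^ N0 = 1 + C d1 * l := b3
    have c3' : y2 ^ N1 = 1 + C d2 * l := c3
    fin_cases i
    · rcases g1 with g1 | g1
      · refine ⟨1, inL_one, by simp, ?_⟩
        show (1 : PowerSeries k) ^ N0 = 1 + C (d 0) * l
        rw [g1]
        simp
      · refine ⟨y1, b1, b2, ?_⟩
        show y1 ^ N0 = 1 + C (d 0) * l
        rw [g1, b3']
    · rcases g2 with g2 | g2 | ⟨g2, g3⟩
      · refine ⟨1, inL_one, by simp, ?_⟩
        show (1 : PowerSeries k) ^ N1 = 1 + C (d 1) * l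
        rw [g2]
        simp
      · refine ⟨y2, c1, c2, ?_⟩
        show y2 ^ N1 = 1 + C (d 1) * l
        rw [g2, c3']
      · refine ⟨y1 ^ M, b1.pow M, by rw [map_pow, b2, one_pow], ?_⟩
        show (y1 ^ M) ^ N1 = 1 + C (d 1) * l
        rw [g2, g3, ← pow_mul, hM, b3']
  have two : ∀ a : k, a ≠ 0 → 2 * a ≠ a := by
    intro a ha h
    apply ha
    linear_combination h
  by_cases h0 : d 0 = 0
  · by_cases h1 : d 1 = 0
    · exact main 2 1 two_ne_zero one_ne_zero (by norm_num) (Or.inl h0) (Or.inl h1)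
    · exact main (2 * d 1) (d 1) (mul_ne_zero two_ne_zero h1) h1 (two _ h1) (Or.inl h0)
        (Or.inr (Or.inl rfl))
  · by_cases h1 : d 1 = 0
    · exact main (d 0) (2 * d 0) h0 (mul_ne_zero two_ne_zero h0) (two _ h0).symm (Or.inr rfl)
        (Or.inl h1)
    · by_cases h2 : d 1 = d 0
      · exact main (d 0) (2 * d 0) h0 (mul_ne_zero two_ne_zero h0) (two _ h0).symm (Or.inr rfl)
          (Or.inr (Or.inr ⟨h2, rfl⟩))
      · exact main (d 0) (d 1) h0 h1 (fun h => h2 h.symm) (Or.inr rfl) (Or.inr (Or.inl rfl))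

variable [IsAlgClosed k]

theorem peuclid33 : PEuclid k ![3, 3] := by
  classical
  refine peuclid_pair (M := 1) (by norm_num) fun d1 d2 h1 h2 h12 => ?_
  obtain ⟨s, hs⟩ := IsAlgClosed.exists_pow_nat_eq (-3 : k) (n := 2) (by norm_num)
  obtain ⟨ω, hω⟩ : ∃ ω : k, ω = (-1 + s) / 2 := ⟨_, rfl⟩
  have hω2 : ω ^ 2 + ω + 1 = 0 := by
    rw [hω]
    linear_combination hs / 4
  have hω3 : ω ^ 3 = 1 := by linear_combination (ω - 1) * hω2
  have hω1 : ω ≠ 1 := by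
    intro h
    rw [h] at hω2
    norm_num at hω2
  obtain ⟨X0, Y0, hX0, hY0, hXY⟩ : ∃ X0 Y0 : k, X0 ^ 3 = d1⁻¹ ∧ Y0 ^ 3 = -d2⁻¹ ∧ X0 ≠ Y0 := by
    obtain ⟨X0, hX0⟩ := IsAlgClosed.exists_pow_nat_eq d1⁻¹ (n := 3) (by norm_num)
    obtain ⟨Y0, hY0⟩ := IsAlgClosed.exists_pow_nat_eq (-d2⁻¹) (n := 3) (by norm_num)
    by_cases h : X0 = Y0
    · refine ⟨ω * X0, Y0, by rw [mul_pow, hω3, hX0, one_mul], hY0, fun h' => ?_⟩
      have hX00 : X0 ≠ 0 := by
        rintro rfl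
        have : (0 : k) = d1⁻¹ := by rw [← hX0]; norm_num
        exact inv_ne_zero h1 this.symm
      apply hω1
      rw [← h] at h'
      exact mul_right_cancel₀ hX00 (by rw [h', one_mul])
    · exact ⟨X0, Y0, hX0, hY0, h⟩
  have hX00 : X0 ≠ 0 := by
    rintro rfl
    have : (0 : k) = d1⁻¹ := by rw [← hX0]; norm_num
    exact inv_ne_zero h1 this.symm
  have hY00 : Y0 ≠ 0 := by
    rintro rfl
    have : (0 : k) = -d2⁻¹ := by rw [← hY0]; norm_num
    exact neg_ne_zero.2 (inv_ne_zero h2) this.symm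
  obtain ⟨c, hc⟩ : ∃ c : k, c = X0 ^ 3 + Y0 ^ 3 := ⟨_, rfl⟩
  have hc0 : c ≠ 0 := by
    rw [hc, hX0, hY0]
    intro h
    apply h12
    have : d1⁻¹ = d2⁻¹ := by linear_combination h
    exact inv_injective this
  have hS : X0 + Y0 ≠ 0 := by
    intro h
    apply hc0
    rw [hc]
    linear_combination (X0 ^ 2 - X0 * Y0 + Y0 ^ 2) * h
  obtain ⟨U0, hU0⟩ : ∃ U0 : k, U0 = 12 * c / (X0 + Y0) := ⟨_, rfl⟩
  obtain ⟨V0, hV0⟩ : ∃ V0 : k, V0 = 36 * c * (X0 - Y0) / (X0 + Y0) := ⟨_, rfl⟩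
  have hU00 : U0 ≠ 0 := by
    rw [hU0]
    exact div_ne_zero (mul_ne_zero (by norm_num) hc0) hS
  have hV00 : V0 ≠ 0 := by
    rw [hV0]
    exact div_ne_zero (mul_ne_zero (mul_ne_zero (by norm_num) hc0) (sub_ne_zero.2 hXY)) hS
  have hUV : V0 ^ 2 = U0 ^ 3 - 432 * c ^ 2 := by
    rw [hU0, hV0, hc]
    field_simp
    ring
  obtain ⟨ρ, hρ⟩ := IsAlgClosed.exists_pow_nat_eq (432 * c ^ 2) (n := 3) (by norm_num)
  have hprod : (U0 - ρ) * (U0 - ω * ρ) * (U0 - ω ^ 2 * ρ) = V0 ^ 2 := by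
    rw [hUV, ← hρ]
    linear_combination (-(U0) ^ 2 * ρ + ρ ^ 2 * U0 * ω - ρ ^ 3 * (ω - 1)) * hω2
  have hg : (U0 - ρ) ≠ 0 ∧ (U0 - ω * ρ) ≠ 0 ∧ (U0 - ω ^ 2 * ρ) ≠ 0 := by
    have h3 : (U0 - ρ) * (U0 - ω * ρ) * (U0 - ω ^ 2 * ρ) ≠ 0 := by
      rw [hprod]
      exact pow_ne_zero _ hV00
    exact ⟨left_ne_zero_of_mul (left_ne_zero_of_mul h3),
      right_ne_zero_of_mul (left_ne_zero_of_mul h3), right_ne_zero_of_mul h3⟩
  obtain ⟨L, hL, hinf⟩ := peuclid222 (k := k) ![(U0 - ρ)⁻¹, (U0 - ω * ρ)⁻¹, (U0 - ω ^ 2 * ρ)⁻¹]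
  refine ⟨L, hL, ?_⟩
  -- the new solution
  have key : ∀ l', PSol L ![2, 2, 2] ![(U0 - ρ)⁻¹, (U0 - ω * ρ)⁻¹, (U0 - ω ^ 2 * ρ)⁻¹] l' →
      ∃ P Q : PowerSeries k, PSol L ![3, 3] ![d1, d2] (P ^ 3 - C d1⁻¹) ∧ P ^ 3 + Q ^ 3 = C c ∧
        constantCoeff (P + Q) ≠ 0 ∧ l' + C U0 = C (12 * c) * (P + Q)⁻¹ := by
    rintro l' ⟨a1, a2, a3⟩
    obtain ⟨y0, b1, b2, b3⟩ := a3 0
    obtain ⟨y1, c1, c2, c3⟩ := a3 1
    obtain ⟨y2, e1, e2, e3⟩ := a3 2
    have b3' : y0 ^ 2 = 1 + C (U0 - ρ)⁻¹ * l' := b3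
    have c3' : y1 ^ 2 = 1 + C (U0 - ω * ρ)⁻¹ * l' := c3
    have e3' : y2 ^ 2 = 1 + C (U0 - ω ^ 2 * ρ)⁻¹ * l' := e3
    obtain ⟨U, hU⟩ : ∃ U : PowerSeries k, U = l' + C U0 := ⟨_, rfl⟩
    obtain ⟨V, hV⟩ : ∃ V : PowerSeries k, V = C V0 * (y0 * y1 * y2) := ⟨_, rfl⟩
    have hCi : ∀ g : k, g ≠ 0 → (C g : PowerSeries k) * C g⁻¹ = 1 := fun g hg => by
      rw [← map_mul, mul_inv_cancel₀ hg, map_one]
    have hVU : V ^ 2 = U ^ 3 - C (432 * c ^ 2) := by
      have f0 : C (U0 - ρ) * y0 ^ 2 = U - C ρ := by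
        rw [b3', hU, mul_add, ← mul_assoc, hCi _ hg.1, map_sub]
        ring
      have f1 : C (U0 - ω * ρ) * y1 ^ 2 = U - C ω * C ρ := by
        rw [c3', hU, mul_add, ← mul_assoc, hCi _ hg.2.1, map_sub, map_mul]
        ring
      have f2 : C (U0 - ω ^ 2 * ρ) * y2 ^ 2 = U - C ω ^ 2 * C ρ := by
        rw [e3', hU, mul_add, ← mul_assoc, hCi _ hg.2.2, map_sub, map_mul, map_pow]
        ring
      have f3 : V ^ 2 = (C (U0 - ρ) * y0 ^ 2) * (C (U0 - ω * ρ) * y1 ^ 2) *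
          (C (U0 - ω ^ 2 * ρ) * y2 ^ 2) := by
        have f4 : (C V0 : PowerSeries k) ^ 2 = C (U0 - ρ) * C (U0 - ω * ρ) *
            C (U0 - ω ^ 2 * ρ) := by
          rw [← map_pow, ← hprod, map_mul, map_mul]
        rw [hV]
        linear_combination (y0 * y1 * y2) ^ 2 * f4
      have f5 : (C ω : PowerSeries k) ^ 2 + C ω + 1 = 0 := by
        have := congrArg (C : k → PowerSeries k) hω2
        simpa using this
      rw [f3, f0, f1, f2, ← hρ, map_pow]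
      linear_combination (-U ^ 2 * C ρ + C ρ ^ 2 * U * C ω - C ρ ^ 3 * (C ω - 1)) * f5
    have hUc : constantCoeff U = U0 := by simp [hU, a2]
    have hVc : constantCoeff V = V0 := by simp [hV, b2, c2, e2]
    have hUL : InL L U := by rw [hU]; exact a1.add (inL_C _)
    have hVL : InL L V := by rw [hV]; exact (inL_C _).mul ((b1.mul c1).mul e1)
    have hDc : constantCoeff (C 6 * U) ≠ 0 := by
      rw [map_mul, hUc]
      simpa using mul_ne_zero (by norm_num : (6 : k) ≠ 0) hU00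
    obtain ⟨D, hD⟩ : ∃ D : PowerSeries k, D = (C 6 * U)⁻¹ := ⟨_, rfl⟩
    have hDU : C 6 * U * D = 1 := by
      rw [hD]
      exact PowerSeries.mul_inv_cancel _ hDc
    have hDL : InL L D := by
      rw [hD]
      exact ((inL_C _).mul hUL).inv hDc
    have hDc' : constantCoeff D = (6 * U0)⁻¹ := by
      have := congrArg constantCoeff hDU
      rw [map_mul, map_mul, hUc, map_one, PowerSeries.constantCoeff_C] at this
      exact eq_inv_of_mul_eq_one_right this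
    obtain ⟨P, hP⟩ : ∃ P : PowerSeries k, P = (C (36 * c) + V) * D := ⟨_, rfl⟩
    obtain ⟨Q, hQ⟩ : ∃ Q : PowerSeries k, Q = (C (36 * c) - V) * D := ⟨_, rfl⟩
    have hPL : InL L P := by rw [hP]; exact ((inL_C _).add hVL).mul hDL
    have hQL : InL L Q := by rw [hQ]; exact ((inL_C _).sub hVL).mul hDL
    have hPc : constantCoeff P = X0 := by
      rw [hP, map_mul, map_add, hVc, hDc', PowerSeries.constantCoeff_C, hU0, hV0]
      field_simp
      ring
    have hQc : constantCoeff Q = Y0 := by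
      rw [hQ, map_mul, map_sub, hVc, hDc', PowerSeries.constantCoeff_C, hU0, hV0]
      field_simp
      ring
    have h6 : (C 6 : PowerSeries k) = 6 := map_ofNat C 6
    have h36 : (C (36 * c) : PowerSeries k) = 36 * C c := by
      rw [map_mul]
      congr 1
    have h432 : (C (432 * c ^ 2) : PowerSeries k) = 432 * C c ^ 2 := by
      rw [map_mul, map_pow]
      congr 1
    have h12' : (C (12 * c) : PowerSeries k) = 12 * C c := by
      rw [map_mul]
      congr 1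
    rw [h6] at hDU
    rw [h432] at hVU
    have hsum : P ^ 3 + Q ^ 3 = C c := by
      rw [hP, hQ, h36]
      have g1 : (6 * U * D) ^ 3 = 1 := by rw [hDU, one_pow]
      linear_combination (216 * C c * D ^ 3) * hVU + C c * g1
    refine ⟨P, Q, ⟨(hPL.pow 3).sub (inL_C _), ?_, fun i => ?_⟩, hsum, ?_, ?_⟩
    · rw [map_sub, map_pow, hPc, PowerSeries.constantCoeff_C, hX0, sub_self]
    · have hCd1 : (C d1 : PowerSeries k) * C d1⁻¹ = 1 := hCi _ h1
      have hCd2 : (C d2 : PowerSeries k) * C d2⁻¹ = 1 := hCi _ h2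
      fin_cases i
      · refine ⟨C X0⁻¹ * P, (inL_C _).mul hPL, ?_, ?_⟩
        · rw [map_mul, hPc, PowerSeries.constantCoeff_C, inv_mul_cancel₀ hX00]
        · show (C X0⁻¹ * P) ^ 3 = 1 + C d1 * (P ^ 3 - C d1⁻¹)
          have g1 : (C X0⁻¹ : PowerSeries k) ^ 3 = C d1 := by
            rw [← map_pow, inv_pow, hX0, inv_inv]
          rw [mul_pow, g1]
          linear_combination hCd1
      · refine ⟨C Y0⁻¹ * Q, (inL_C _).mul hQL, ?_, ?_⟩
        · rw [map_mul, hQc, PowerSeries.constantCoeff_C, inv_mul_cancel₀ hY00]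
        · show (C Y0⁻¹ * Q) ^ 3 = 1 + C d2 * (P ^ 3 - C d1⁻¹)
          have g1 : (C Y0⁻¹ : PowerSeries k) ^ 3 = -C d2 := by
            rw [← map_pow, inv_pow, hY0, inv_neg, inv_inv, map_neg]
          have g2 : (C c : PowerSeries k) = C d1⁻¹ - C d2⁻¹ := by
            rw [hc, hX0, hY0, map_add, map_neg]
            ring
          rw [mul_pow, g1]
          linear_combination (-C d2) * hsum - C d2 * g2 + hCd2
    · rw [map_add, hPc, hQc]
      exact hS
    · rw [← hU, h12']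
      have hc1 : constantCoeff (P + Q) ≠ 0 := by
        rw [map_add, hPc, hQc]
        exact hS
      have g1 : (P + Q) * (P + Q)⁻¹ = 1 := PowerSeries.mul_inv_cancel _ hc1
      have g2 : U * (P + Q) = 12 * C c := by
        rw [hP, hQ, h36]
        linear_combination (12 * C c) * hDU
      calc U = U * ((P + Q) * (P + Q)⁻¹) := by rw [g1, mul_one]
        _ = (U * (P + Q)) * (P + Q)⁻¹ := by ring
        _ = _ := by rw [g2]
  -- finite fibres
  intro hfin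
  apply hinf
  have hsub : {l | PSol L ![2, 2, 2] ![(U0 - ρ)⁻¹, (U0 - ω * ρ)⁻¹, (U0 - ω ^ 2 * ρ)⁻¹] l} ⊆
      ⋃ l ∈ {l | PSol L ![3, 3] ![d1, d2] l}, ((fun PQ : PowerSeries k × PowerSeries k =>
        C (12 * c) * (PQ.1 + PQ.2)⁻¹ - C U0) '' ({P | P ^ 3 = l + C d1⁻¹} ×ˢ
          {Q | Q ^ 3 = C c - (l + C d1⁻¹)})) := by
    intro l' hl'
    obtain ⟨P, Q, g1, g2, g3, g4⟩ := key l' hl'
    refine Set.mem_biUnion g1 ⟨(P, Q), ⟨?_, ?_⟩, ?_⟩
    · show P ^ 3 = P ^ 3 - C d1⁻¹ + C d1⁻¹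
      ring
    · show Q ^ 3 = C c - (P ^ 3 - C d1⁻¹ + C d1⁻¹)
      rw [← g2]
      ring
    · show C (12 * c) * (P + Q)⁻¹ - C U0 = l'
      rw [← g4]
      ring
  exact (hfin.biUnion fun l _ => ((fin_pow _ three_ne_zero).prod (fin_pow _ three_ne_zero)).image
    _).subset hsub

theorem peuclid42 : PEuclid k ![4, 2] := by
  classical
  refine peuclid_pair (M := 2) (by norm_num) fun d1 d2 h1 h2 h12 => ?_
  obtain ⟨Y0, hY0⟩ := IsAlgClosed.exists_pow_nat_eq d1⁻¹ (n := 4) (by norm_num)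
  obtain ⟨Z0, hZ0⟩ := IsAlgClosed.exists_pow_nat_eq d2⁻¹ (n := 2) (by norm_num)
  have hY00 : Y0 ≠ 0 := by
    rintro rfl
    have : (0 : k) = d1⁻¹ := by rw [← hY0]; norm_num
    exact inv_ne_zero h1 this.symm
  have hZ00 : Z0 ≠ 0 := by
    rintro rfl
    have : (0 : k) = d2⁻¹ := by rw [← hZ0]; norm_num
    exact inv_ne_zero h2 this.symm
  obtain ⟨c, hc⟩ : ∃ c : k, c = Z0 ^ 2 - Y0 ^ 4 := ⟨_, rfl⟩
  have hc0 : c ≠ 0 := by
    rw [hc, hY0, hZ0]
    intro h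
    apply h12
    have : d1⁻¹ = d2⁻¹ := by linear_combination -h
    exact inv_injective this
  obtain ⟨U0, hU0⟩ : ∃ U0 : k, U0 = 2 * (Z0 + Y0 ^ 2) := ⟨_, rfl⟩
  obtain ⟨V0, hV0⟩ : ∃ V0 : k, V0 = 2 * U0 * Y0 := ⟨_, rfl⟩
  have hU00 : U0 ≠ 0 := by
    rw [hU0]
    intro h
    apply hc0
    rw [hc]
    linear_combination (Z0 - Y0 ^ 2) / 2 * h
  have hV00 : V0 ≠ 0 := by
    rw [hV0]
    exact mul_ne_zero (mul_ne_zero two_ne_zero hU00) hY00
  have hUV : V0 ^ 2 = U0 ^ 3 - 4 * c * U0 := by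
    rw [hV0, hU0, hc]
    ring
  obtain ⟨γ, hγ⟩ := IsAlgClosed.exists_pow_nat_eq c (n := 2) (by norm_num)
  have hprod : U0 * (U0 - 2 * γ) * (U0 + 2 * γ) = V0 ^ 2 := by
    rw [hUV, ← hγ]
    ring
  have hg : U0 ≠ 0 ∧ (U0 - 2 * γ) ≠ 0 ∧ (U0 + 2 * γ) ≠ 0 := by
    have h3 : U0 * (U0 - 2 * γ) * (U0 + 2 * γ) ≠ 0 := by
      rw [hprod]
      exact pow_ne_zero _ hV00
    exact ⟨left_ne_zero_of_mul (left_ne_zero_of_mul h3),
      right_ne_zero_of_mul (left_ne_zero_of_mul h3), right_ne_zero_of_mul h3⟩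
  obtain ⟨L, hL, hinf⟩ := peuclid222 (k := k) ![U0⁻¹, (U0 - 2 * γ)⁻¹, (U0 + 2 * γ)⁻¹]
  refine ⟨L, hL, ?_⟩
  -- the new solution
  have key : ∀ l', PSol L ![2, 2, 2] ![U0⁻¹, (U0 - 2 * γ)⁻¹, (U0 + 2 * γ)⁻¹] l' →
      ∃ P Q : PowerSeries k, PSol L ![4, 2] ![d1, d2] (P ^ 4 - C d1⁻¹) ∧ Q ^ 2 = P ^ 4 + C c ∧
        l' + C U0 = 2 * (Q + P ^ 2) := by
    rintro l' ⟨a1, a2, a3⟩
    obtain ⟨y0, b1, b2, b3⟩ := a3 0
    obtain ⟨y1, c1, c2, c3⟩ := a3 1
    obtain ⟨y2, e1, e2, e3⟩ := a3 2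
    have b3' : y0 ^ 2 = 1 + C U0⁻¹ * l' := b3
    have c3' : y1 ^ 2 = 1 + C (U0 - 2 * γ)⁻¹ * l' := c3
    have e3' : y2 ^ 2 = 1 + C (U0 + 2 * γ)⁻¹ * l' := e3
    obtain ⟨U, hU⟩ : ∃ U : PowerSeries k, U = l' + C U0 := ⟨_, rfl⟩
    obtain ⟨V, hV⟩ : ∃ V : PowerSeries k, V = C V0 * (y0 * y1 * y2) := ⟨_, rfl⟩
    have hCi : ∀ g : k, g ≠ 0 → (C g : PowerSeries k) * C g⁻¹ = 1 := fun g hg => by
      rw [← map_mul, mul_inv_cancel₀ hg, map_one]
    have hC2 : (C (2 : k) : PowerSeries k) = 2 := map_ofNat C 2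
    have hVU : V ^ 2 = U ^ 3 - 4 * C c * U := by
      have f0 : C U0 * y0 ^ 2 = U := by
        rw [b3', hU, mul_add, ← mul_assoc, hCi _ hg.1]
        ring
      have f1 : C (U0 - 2 * γ) * y1 ^ 2 = U - 2 * C γ := by
        rw [c3', hU, mul_add, ← mul_assoc, hCi _ hg.2.1, map_sub, map_mul, hC2]
        ring
      have f2 : C (U0 + 2 * γ) * y2 ^ 2 = U + 2 * C γ := by
        rw [e3', hU, mul_add, ← mul_assoc, hCi _ hg.2.2, map_add, map_mul, hC2]
        ring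
      have f3 : V ^ 2 = (C U0 * y0 ^ 2) * (C (U0 - 2 * γ) * y1 ^ 2) *
          (C (U0 + 2 * γ) * y2 ^ 2) := by
        have f4 : (C V0 : PowerSeries k) ^ 2 = C U0 * C (U0 - 2 * γ) *
            C (U0 + 2 * γ) := by
          rw [← map_pow, ← hprod, map_mul, map_mul]
        rw [hV]
        linear_combination (y0 * y1 * y2) ^ 2 * f4
      rw [f3, f0, f1, f2, ← hγ, map_pow]
      ring
    have hUc : constantCoeff U = U0 := by simp [hU, a2]
    have hVc : constantCoeff V = V0 := by simp [hV, b2, c2, e2]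
    have hUL : InL L U := by rw [hU]; exact a1.add (inL_C _)
    have hVL : InL L V := by rw [hV]; exact (inL_C _).mul ((b1.mul c1).mul e1)
    have hDc : constantCoeff (C 2 * U) ≠ 0 := by
      rw [map_mul, hUc]
      simpa using mul_ne_zero (two_ne_zero : (2 : k) ≠ 0) hU00
    obtain ⟨D, hD⟩ : ∃ D : PowerSeries k, D = (C 2 * U)⁻¹ := ⟨_, rfl⟩
    have hDU : C 2 * U * D = 1 := by
      rw [hD]
      exact PowerSeries.mul_inv_cancel _ hDc
    have hDL : InL L D := by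
      rw [hD]
      exact ((inL_C _).mul hUL).inv hDc
    have hDc' : constantCoeff D = (2 * U0)⁻¹ := by
      have := congrArg constantCoeff hDU
      rw [map_mul, map_mul, hUc, map_one, PowerSeries.constantCoeff_C] at this
      exact eq_inv_of_mul_eq_one_right this
    rw [hC2] at hDU
    obtain ⟨P, hP⟩ : ∃ P : PowerSeries k, P = V * D := ⟨_, rfl⟩
    obtain ⟨Q, hQ⟩ : ∃ Q : PowerSeries k, Q = C 2⁻¹ * U - P ^ 2 := ⟨_, rfl⟩
    have hPL : InL L P := by rw [hP]; exact hVL.mul hDL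
    have hQL : InL L Q := by rw [hQ]; exact ((inL_C _).mul hUL).sub (hPL.pow 2)
    have hPc : constantCoeff P = Y0 := by
      rw [hP, map_mul, hVc, hDc', hV0]
      field_simp
    have hQc : constantCoeff Q = Z0 := by
      rw [hQ, map_sub, map_mul, map_pow, hUc, hPc, PowerSeries.constantCoeff_C, hU0]
      field_simp
      ring
    have h22 : (2 : PowerSeries k) * C 2⁻¹ = 1 := by
      rw [← hC2]
      exact hCi 2 two_ne_zero
    have hQ2 : 2 * (Q + P ^ 2) = U := by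
      rw [hQ]
      linear_combination U * h22
    -- `4 U P ^ 2 = U ^ 2 - 4 c`
    have hUP : 4 * U * P ^ 2 = U ^ 2 - 4 * C c := by
      have hU0' : U ≠ 0 := by
        intro h
        rw [h] at hUc
        simp at hUc
        exact hU00 hUc.symm
      apply mul_left_cancel₀ hU0'
      rw [hP]
      linear_combination hVU + V ^ 2 * (2 * U * D + 1) * hDU
    have hsum : Q ^ 2 = P ^ 4 + C c := by
      have h4 : (4 : PowerSeries k) ≠ 0 := by
        intro h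
        have := congrArg constantCoeff h
        rw [show (4 : PowerSeries k) = C 4 from (map_ofNat C 4).symm, PowerSeries.constantCoeff_C,
          map_zero] at this
        norm_num at this
      apply mul_left_cancel₀ h4
      have h5 : 2 * Q = U - 2 * P ^ 2 := by linear_combination hQ2
      linear_combination (2 * Q + U - 2 * P ^ 2) * h5 - hUP
    refine ⟨P, Q, ⟨(hPL.pow 4).sub (inL_C _), ?_, fun i => ?_⟩, hsum, ?_⟩
    · rw [map_sub, map_pow, hPc, PowerSeries.constantCoeff_C, hY0, sub_self]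
    · have hCd1 : (C d1 : PowerSeries k) * C d1⁻¹ = 1 := hCi _ h1
      have hCd2 : (C d2 : PowerSeries k) * C d2⁻¹ = 1 := hCi _ h2
      fin_cases i
      · refine ⟨C Y0⁻¹ * P, (inL_C _).mul hPL, ?_, ?_⟩
        · rw [map_mul, hPc, PowerSeries.constantCoeff_C, inv_mul_cancel₀ hY00]
        · show (C Y0⁻¹ * P) ^ 4 = 1 + C d1 * (P ^ 4 - C d1⁻¹)
          have g1 : (C Y0⁻¹ : PowerSeries k) ^ 4 = C d1 := by
            rw [← map_pow, inv_pow, hY0, inv_inv]
          rw [mul_pow, g1]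
          linear_combination hCd1
      · refine ⟨C Z0⁻¹ * Q, (inL_C _).mul hQL, ?_, ?_⟩
        · rw [map_mul, hQc, PowerSeries.constantCoeff_C, inv_mul_cancel₀ hZ00]
        · show (C Z0⁻¹ * Q) ^ 2 = 1 + C d2 * (P ^ 4 - C d1⁻¹)
          have g1 : (C Z0⁻¹ : PowerSeries k) ^ 2 = C d2 := by
            rw [← map_pow, inv_pow, hZ0, inv_inv]
          have g2 : (C c : PowerSeries k) = C d2⁻¹ - C d1⁻¹ := by
            rw [hc, hY0, hZ0, map_sub]
          rw [mul_pow, g1]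
          linear_combination (C d2) * hsum + C d2 * g2 + hCd2
    · rw [← hU, hQ2]
  -- finite fibres
  intro hfin
  apply hinf
  have hsub : {l | PSol L ![2, 2, 2] ![U0⁻¹, (U0 - 2 * γ)⁻¹, (U0 + 2 * γ)⁻¹] l} ⊆
      ⋃ l ∈ {l | PSol L ![4, 2] ![d1, d2] l}, ((fun PQ : PowerSeries k × PowerSeries k =>
        2 * (PQ.2 + PQ.1 ^ 2) - C U0) '' ({P | P ^ 4 = l + C d1⁻¹} ×ˢ
          {Q | Q ^ 2 = l + C d1⁻¹ + C c})) := by
    intro l' hl'
    obtain ⟨P, Q, g1, g2, g3⟩ := key l' hl'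
    refine Set.mem_biUnion g1 ⟨(P, Q), ⟨?_, ?_⟩, ?_⟩
    · show P ^ 4 = P ^ 4 - C d1⁻¹ + C d1⁻¹
      ring
    · show Q ^ 2 = P ^ 4 - C d1⁻¹ + C d1⁻¹ + C c
      rw [g2]
      ring
    · show 2 * (Q + P ^ 2) - C U0 = l'
      rw [← g3]
      ring
  exact (hfin.biUnion fun l _ => ((fin_pow _ four_ne_zero).prod (fin_pow _ two_ne_zero)).image
    _).subset hsub

end Pool.Agent.H734R3.PG
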