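import Mathlib
import Pool.Agent.H734R3.PG.Pair
import Pool.Agent.H734R3.LV.Good

/-!
# Power series points on lines with Euclidean orbifold structure
-/

set_option autoImplicit false

namespace Pool.Agent.H734R3.PG

open Pool.Agent.H734R3.LV


variable {k : Type*} [Field k]

/-- the good parameters on a line -/
def GoodS {n r : ℕ} (m : Fin r → ℕ) (f : Fin r → MvPolynomial (Fin n) k) (p v : Fin n → k)
    (L : IntermediateField k (Om k)) : Set (PowerSeries k) :=
  {t | InL L t ∧ PowerSeries.constantCoeff t = 0 ∧ ∀ i, ∃ y, InL L y ∧ PowerSeries.constantCoeff y = 1 ∧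
    PowerSeries.C (MvPolynomial.eval p (f i)) * y ^ m i = Polynomial.aeval t (restr (f i) p v)}

theorem forms {q : ℕ} {N : Fin q → ℕ} (hE : PEuclid k N) (c0 : k) (c : Fin q → k) :
    ∃ L : IntermediateField k (Om k), CurveL L ∧
      {t : PowerSeries k | InL L t ∧ PowerSeries.constantCoeff t = 0 ∧ ∀ i, ∃ y, InL L y ∧ PowerSeries.constantCoeff y = 1 ∧
        (1 + PowerSeries.C c0 * t) * y ^ N i = 1 + PowerSeries.C (c i) * t}.Infinite := by
  obtain ⟨L, hL, hinf⟩ := hE fun i => c i - c0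
  refine ⟨L, hL, fun hfin => hinf ?_⟩
  have key : ∀ l, PSol L N (fun i => c i - c0) l → ∃ t, (InL L t ∧ PowerSeries.constantCoeff t = 0 ∧ ∀ i, ∃ y, InL L y ∧
      PowerSeries.constantCoeff y = 1 ∧ (1 + PowerSeries.C c0 * t) * y ^ N i = 1 + PowerSeries.C (c i) * t) ∧
      l = t * (1 + PowerSeries.C c0 * t)⁻¹ := by
    rintro l ⟨h1, h2, h3⟩
    have hE0 : PowerSeries.constantCoeff (1 - PowerSeries.C c0 * l) ≠ 0 := by simp [h2]
    have hE1 : (1 - PowerSeries.C c0 * l) * (1 - PowerSeries.C c0 * l)⁻¹ = 1 := PowerSeries.mul_inv_cancel _ hE0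
    have hEL : InL L (1 - PowerSeries.C c0 * l)⁻¹ := (inL_one.sub ((inL_C _).mul h1)).inv hE0
    refine ⟨l * (1 - PowerSeries.C c0 * l)⁻¹, ⟨h1.mul hEL, by simp [h2], fun i => ?_⟩, ?_⟩
    · obtain ⟨y, y1, y2, y3⟩ := h3 i
      refine ⟨y, y1, y2, ?_⟩
      rw [y3, map_sub]
      linear_combination (PowerSeries.C c0 * l - PowerSeries.C (c i) * l) * hE1
    · have hF0 : PowerSeries.constantCoeff (1 + PowerSeries.C c0 * (l * (1 - PowerSeries.C c0 * l)⁻¹)) ≠ 0 := by simp [h2]
      have hF1 := PowerSeries.mul_inv_cancel _ hF0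
      have hF2 : (1 - PowerSeries.C c0 * l) * (1 + PowerSeries.C c0 * (l * (1 - PowerSeries.C c0 * l)⁻¹)) = 1 := by
        linear_combination (PowerSeries.C c0 * l) * hE1
      have hF3 : (1 + PowerSeries.C c0 * (l * (1 - PowerSeries.C c0 * l)⁻¹))⁻¹ = 1 - PowerSeries.C c0 * l := by
        calc (1 + PowerSeries.C c0 * (l * (1 - PowerSeries.C c0 * l)⁻¹))⁻¹ = ((1 - PowerSeries.C c0 * l) *
              (1 + PowerSeries.C c0 * (l * (1 - PowerSeries.C c0 * l)⁻¹))) *
              (1 + PowerSeries.C c0 * (l * (1 - PowerSeries.C c0 * l)⁻¹))⁻¹ := by rw [hF2, one_mul]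
          _ = (1 - PowerSeries.C c0 * l) * ((1 + PowerSeries.C c0 * (l * (1 - PowerSeries.C c0 * l)⁻¹)) *
              (1 + PowerSeries.C c0 * (l * (1 - PowerSeries.C c0 * l)⁻¹))⁻¹) := by ring
          _ = _ := by rw [hF1, mul_one]
      rw [hF3]
      linear_combination (-l) * hE1
  refine (hfin.image fun t => t * (1 + PowerSeries.C c0 * t)⁻¹).subset ?_
  intro l hl
  obtain ⟨t, ht, hlt⟩ := key l hl
  exact ⟨t, ht, hlt.symm⟩

variable [IsAlgClosed k] [CharZero k]

/-- pattern with `q` additional roots -/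
theorem good_of_pattern {n r q : ℕ} (m : Fin r → ℕ) (hm0 : ∀ i, m i ≠ 0)
    (f : Fin r → MvPolynomial (Fin n) k)
    (e : Fin r → ℕ) (hdeg : ∀ i, (f i).totalDegree ≤ m i * e i)
    (he : ∑ i, (m i - 1) * e i < n + q)
    (b : Fin q → Σ i : Fin r, Fin (e i)) (mult : (Σ i : Fin r, Fin (e i)) ⊕ Fin q → ℕ)
    (hmult : ∀ s, 0 < mult s)
    (hsum : ∀ j, mult (Sum.inl j) + ∑ a, (if b a = j then mult (Sum.inr a) else 0) = m j.1)
    (hT : ∀ (c : (Σ i : Fin r, Fin (e i)) ⊕ Fin q → k), ∃ L : IntermediateField k (Om k),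
      CurveL L ∧ {t : PowerSeries k | InL L t ∧ PowerSeries.constantCoeff t = 0 ∧ ∀ j, ∃ y, InL L y ∧ PowerSeries.constantCoeff y = 1 ∧
        y ^ m j.1 = (1 + PowerSeries.C (c (Sum.inl j)) * t) ^ mult (Sum.inl j) *
          ∏ a, (if b a = j then (1 + PowerSeries.C (c (Sum.inr a)) * t) ^ mult (Sum.inr a) else 1)}.Infinite)
    (p : Fin n → k) (hp : ∀ i, MvPolynomial.eval p (f i) ≠ 0) :
    ∃ v : Fin n → k, v ≠ 0 ∧ ∃ L : IntermediateField k (Om k), CurveL L ∧
      (GoodS m f p v L).Infinite := by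
  classical
  let J := Σ i : Fin r, Fin (e i)
  let own : J ⊕ Fin q → Fin r := fun s => (slot b s).1
  have hcardfib : ∀ i, (Finset.univ.filter fun j : J => j.1 = i).card = e i := by
    intro i
    rw [Finset.card_filter, Fintype.sum_sigma, Finset.sum_eq_single i]
    · simp
    · intro b _ hb
      simp [hb]
    · simp
  have hown : ∀ i, ∑ s with own s = i, mult s = m i * e i := by
    intro i
    have h1 : ∑ s with own s = i, mult s = ∑ j : J with j.1 = i, ∑ s with slot b s = j, mult s :=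
      prod_own (fun j : J => j.1) (M := Multiplicative ℕ) b mult i
    have h2 : ∑ j : J with j.1 = i, ∑ s with slot b s = j, mult s = ∑ j : J with j.1 = i, m i := by
      refine Finset.sum_congr rfl fun j hj => ?_
      rw [sum_slot b j mult, hsum j]
      have : j.1 = i := by simpa using hj
      rw [this]
    rw [h1, h2, Finset.sum_const, hcardfib, smul_eq_mul, mul_comm]
  have htot : ∑ s, mult s = ∑ i, m i * e i := by
    rw [← Finset.sum_fiberwise Finset.univ own mult, Finset.sum_congr rfl fun i _ => hown i]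
  have hcard : ∑ s, mult s < n + Fintype.card (J ⊕ Fin q) := by
    rw [htot]
    simp only [J, Fintype.card_sum, Fintype.card_sigma, Fintype.card_fin]
    have h3 : ∑ i, m i * e i = ∑ i, (m i - 1) * e i + ∑ i, e i := by
      rw [← Finset.sum_add_distrib]
      refine Finset.sum_congr rfl fun i _ => ?_
      obtain ⟨m', hm'⟩ : ∃ m', m i = m' + 1 := ⟨m i - 1, by have := hm0 i; omega⟩
      rw [hm', Nat.add_sub_cancel]
      ring
    omega
  obtain ⟨v, hv, c, hc⟩ := exists_line f own mult hmult (fun i => (hdeg i).trans (hown i).ge)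
    hcard p hp
  -- the identity of polynomials
  have hpol : ∀ i, restr (f i) p v = Polynomial.C (MvPolynomial.eval p (f i)) *
      ∏ s with own s = i, (1 + Polynomial.C (c s) * Polynomial.X) ^ mult s := by
    intro i
    apply Polynomial.funext
    intro t
    rw [restr_eval, hc]
    simp [Polynomial.eval_prod]
  have hser : ∀ i (t : PowerSeries k), Polynomial.aeval t (restr (f i) p v) =
      PowerSeries.C (MvPolynomial.eval p (f i)) * ∏ s with own s = i, (1 + PowerSeries.C (c s) * t) ^ mult s := by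
    intro i t
    rw [hpol, map_mul, Polynomial.aeval_C, map_prod]
    congr 1
    refine Finset.prod_congr rfl fun s _ => ?_
    rw [map_pow, map_add, map_one, map_mul, Polynomial.aeval_C, Polynomial.aeval_X]
    rfl
  obtain ⟨L, hL, hinf⟩ := hT c
  refine ⟨v, hv, L, hL, hinf.mono ?_⟩
  rintro t ⟨htL, ht0, ht⟩
  refine ⟨htL, ht0, fun i => ?_⟩
  choose y hyL hy0 hy using ht
  have hprodL : ∀ s : Finset J, InL L (∏ j ∈ s, y j) := by
    intro s
    induction s using Finset.induction_on with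
    | empty => simpa using inL_one
    | insert a s ha ih =>
      rw [Finset.prod_insert ha]
      exact (hyL a).mul ih
  refine ⟨∏ j : J with j.1 = i, y j, hprodL _, ?_, ?_⟩
  · rw [map_prod]
    exact Finset.prod_eq_one fun j _ => hy0 j
  · rw [hser, ← Finset.prod_pow]
    congr 1
    refine Eq.trans ?_ (prod_own (fun j : J => j.1) b
      (fun s => (1 + PowerSeries.C (c s) * t) ^ mult s) i).symm
    refine Finset.prod_congr rfl fun j hj => ?_
    have hji : j.1 = i := by simpa using hj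
    rw [← hji, hy j, prod_slot]

/-- constant branch equations -/
theorem good_const {n r : ℕ} (hn : 1 ≤ n) (m : Fin r → ℕ)
    (f : Fin r → MvPolynomial (Fin n) k)
    (hdeg : ∀ i, (f i).totalDegree = 0) (p : Fin n → k) :
    ∃ v : Fin n → k, v ≠ 0 ∧ ∃ L : IntermediateField k (Om k), CurveL L ∧
      (GoodS m f p v L).Infinite := by
  classical
  obtain ⟨L, hL, hinf⟩ := peuclid1 (k := k) (N := 1) one_ne_zero ![0]
  refine ⟨fun _ => 1, fun h => one_ne_zero (congrFun h ⟨0, hn⟩), L, hL, hinf.mono ?_⟩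
  rintro t ⟨h1, h2, -⟩
  refine ⟨h1, h2, fun i => ⟨1, inL_one, by simp, ?_⟩⟩
  rw [(MvPolynomial.totalDegree_eq_zero_iff_eq_C.1 (hdeg i))]
  simp [restr]

/-- Fano type -/
theorem good_fano {n r : ℕ} (m : Fin r → ℕ) (hm : ∀ i, 2 ≤ m i)
    (f : Fin r → MvPolynomial (Fin n) k)
    (e : Fin r → ℕ) (hdeg : ∀ i, (f i).totalDegree ≤ m i * e i)
    (he : ∑ i, (m i - 1) * e i ≤ n)
    (b : Σ i : Fin r, Fin (e i))
    (p : Fin n → k) (hp : ∀ i, MvPolynomial.eval p (f i) ≠ 0) :
    ∃ v : Fin n → k, v ≠ 0 ∧ ∃ L : IntermediateField k (Om k), CurveL L ∧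
      (GoodS m f p v L).Infinite := by
  classical
  have hm0 : ∀ i, m i ≠ 0 := fun i => by have := hm i; omega
  refine good_of_pattern m hm0 f e hdeg (q := 1) (by omega) ![b]
    (Sum.elim (fun j => if j = b then 1 else m j.1) ![m b.1 - 1]) ?_ ?_ ?_ p hp
  · rintro (j | j)
    · simp only [Sum.elim_inl]
      have := hm j.1
      split_ifs <;> omega
    · fin_cases j
      have := hm b.1
      simp
      omega
  · intro j
    simp only [Sum.elim_inl, Sum.elim_inr, Fin.sum_univ_one, Matrix.cons_val_zero]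
    by_cases hj : b = j
    · subst hj
      have := hm b.1
      simp
      omega
    · have hj' : ¬ j = b := fun h => hj h.symm
      simp [hj, hj']
  · intro c
    obtain ⟨L, hL, hinf⟩ := forms (N := ![m b.1]) (peuclid1 (hm0 b.1)) (c (Sum.inr 0))
      ![c (Sum.inl b)]
    refine ⟨L, hL, hinf.mono ?_⟩
    rintro t ⟨htL, ht0, ht⟩
    refine ⟨htL, ht0, fun j => ?_⟩
    have hcL : ∀ s, InL L (1 + PowerSeries.C (c s) * t) := fun s => inL_one.add ((inL_C _).mul htL)
    have hc0 : ∀ s, PowerSeries.constantCoeff (1 + PowerSeries.C (c s) * t) = 1 := fun s => by simp [ht0]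
    by_cases hj : b = j
    · subst hj
      obtain ⟨y, hyL, hy0, hy⟩ := ht 0
      simp only [Matrix.cons_val_zero] at hy
      refine ⟨(1 + PowerSeries.C (c (Sum.inr 0)) * t) * y, (hcL _).mul hyL, by rw [map_mul, hc0, hy0, one_mul],
        ?_⟩
      simp only [Sum.elim_inl, Sum.elim_inr, Fin.prod_univ_one, if_true, Matrix.cons_val_zero,
        pow_one]
      rw [← hy, mul_pow]
      obtain ⟨m', hm'⟩ : ∃ m', m b.1 = m' + 1 := ⟨m b.1 - 1, by have := hm0 b.1; omega⟩
      rw [hm', Nat.add_sub_cancel, pow_succ (1 + PowerSeries.C (c (Sum.inr 0)) * t)]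
      ring
    · have hj' : ¬ j = b := fun h => hj h.symm
      refine ⟨1 + PowerSeries.C (c (Sum.inl j)) * t, hcL _, hc0 _, ?_⟩
      simp [hj, hj']

/-- types `(3,3,3)`, `(4,4,2)` -/
theorem good_triple {n r α0 α1 α2 N0 N1 : ℕ} (m : Fin r → ℕ) (hm0 : ∀ i, m i ≠ 0)
    (f : Fin r → MvPolynomial (Fin n) k)
    (e : Fin r → ℕ) (hdeg : ∀ i, (f i).totalDegree ≤ m i * e i)
    (he : ∑ i, (m i - 1) * e i ≤ n + 1)
    (b : Σ i : Fin r, Fin (e i))
    (hα0 : α0 ≠ 0) (hm : α0 + α1 + α2 = m b.1) (hN0 : N0 * α1 = m b.1)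
    (hN1 : N1 * α2 = m b.1) (hE : PEuclid k ![N0, N1])
    (p : Fin n → k) (hp : ∀ i, MvPolynomial.eval p (f i) ≠ 0) :
    ∃ v : Fin n → k, v ≠ 0 ∧ ∃ L : IntermediateField k (Om k), CurveL L ∧
      (GoodS m f p v L).Infinite := by
  classical
  have hb0 := hm0 b.1
  have hα1 : 0 < α1 := Nat.pos_of_ne_zero (by rintro rfl; omega)
  have hα2 : 0 < α2 := Nat.pos_of_ne_zero (by rintro rfl; omega)
  refine good_of_pattern m hm0 f e hdeg (q := 2) (by omega) ![b, b]
    (Sum.elim (fun j => if j = b then α0 else m j.1) ![α1, α2]) ?_ ?_ ?_ p hp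
  · rintro (j | j)
    · simp only [Sum.elim_inl]
      have := hm0 j.1
      split_ifs <;> omega
    · fin_cases j
      · exact hα1
      · exact hα2
  · intro j
    simp only [Sum.elim_inl, Sum.elim_inr, Fin.sum_univ_two, Matrix.cons_val_zero,
      Matrix.cons_val_one]
    by_cases hj : b = j
    · subst hj
      simp
      omega
    · have hj' : ¬ j = b := fun h => hj h.symm
      simp [hj, hj']
  · intro c
    obtain ⟨L, hL, hinf⟩ := forms (N := ![N0, N1]) hE (c (Sum.inl b))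
      ![c (Sum.inr 0), c (Sum.inr 1)]
    refine ⟨L, hL, hinf.mono ?_⟩
    rintro t ⟨htL, ht0, ht⟩
    refine ⟨htL, ht0, fun j => ?_⟩
    have hcL : ∀ s, InL L (1 + PowerSeries.C (c s) * t) := fun s => inL_one.add ((inL_C _).mul htL)
    have hc0 : ∀ s, PowerSeries.constantCoeff (1 + PowerSeries.C (c s) * t) = 1 := fun s => by simp [ht0]
    by_cases hj : b = j
    · subst hj
      obtain ⟨y, hyL, hy0, hy⟩ := ht 0
      obtain ⟨z, hzL, hz0, hz⟩ := ht 1
      simp only [Matrix.cons_val_zero, Matrix.cons_val_one] at hy hz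
      refine ⟨(1 + PowerSeries.C (c (Sum.inl b)) * t) * y * z, ((hcL _).mul hyL).mul hzL,
        by rw [map_mul, map_mul, hc0, hy0, hz0, one_mul, one_mul], ?_⟩
      simp only [Sum.elim_inl, Sum.elim_inr, if_true, Matrix.cons_val_zero, Matrix.cons_val_one,
        Fin.prod_univ_two]
      rw [← hy, ← hz]
      have e1 : (((1 + PowerSeries.C (c (Sum.inl b)) * t) * y ^ N0) ^ α1 : PowerSeries k) =
        (1 + PowerSeries.C (c (Sum.inl b)) * t) ^ α1 * y ^ m b.1 := by rw [mul_pow, ← pow_mul, hN0]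
      have e2 : (((1 + PowerSeries.C (c (Sum.inl b)) * t) * z ^ N1) ^ α2 : PowerSeries k) =
        (1 + PowerSeries.C (c (Sum.inl b)) * t) ^ α2 * z ^ m b.1 := by rw [mul_pow, ← pow_mul, hN1]
      rw [e1, e2, mul_pow, mul_pow]
      have e3 : (1 + PowerSeries.C (c (Sum.inl b)) * t) ^ m b.1 = (1 + PowerSeries.C (c (Sum.inl b)) * t) ^ α0 *
        (1 + PowerSeries.C (c (Sum.inl b)) * t) ^ α1 * (1 + PowerSeries.C (c (Sum.inl b)) * t) ^ α2 := by
        rw [← hm, pow_add, pow_add]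
      rw [e3]
      ring
    · have hj' : ¬ j = b := fun h => hj h.symm
      refine ⟨1 + PowerSeries.C (c (Sum.inl j)) * t, hcL _, hc0 _, ?_⟩
      simp [hj, hj']

/-- type `(2,2,2,2)` -/
theorem good_double {n r : ℕ} (m : Fin r → ℕ) (hm0 : ∀ i, m i ≠ 0)
    (f : Fin r → MvPolynomial (Fin n) k)
    (e : Fin r → ℕ) (hdeg : ∀ i, (f i).totalDegree ≤ m i * e i)
    (he : ∑ i, (m i - 1) * e i ≤ n + 1)
    (b0 b1 : Σ i : Fin r, Fin (e i)) (hb : b0 ≠ b1) (μ0 μ1 : ℕ) (h0 : m b0.1 = 2 * μ0)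
    (h1 : m b1.1 = 2 * μ1)
    (p : Fin n → k) (hp : ∀ i, MvPolynomial.eval p (f i) ≠ 0) :
    ∃ v : Fin n → k, v ≠ 0 ∧ ∃ L : IntermediateField k (Om k), CurveL L ∧
      (GoodS m f p v L).Infinite := by
  classical
  have hb0 := hm0 b0.1
  have hb1 := hm0 b1.1
  refine good_of_pattern m hm0 f e hdeg (q := 2) (by omega) ![b0, b1]
    (Sum.elim (fun j => if j = b0 then μ0 else if j = b1 then μ1 else m j.1) ![μ0, μ1])
    ?_ ?_ ?_ p hp
  · rintro (j | j)
    · simp only [Sum.elim_inl]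
      have := hm0 j.1
      split_ifs <;> omega
    · fin_cases j
      · simp
        omega
      · simp
        omega
  · intro j
    simp only [Sum.elim_inl, Sum.elim_inr, Fin.sum_univ_two, Matrix.cons_val_zero,
      Matrix.cons_val_one]
    by_cases hj : b0 = j
    · subst hj
      simp [hb.symm, h0]
      omega
    · by_cases hj1 : b1 = j
      · subst hj1
        simp [hb, hb.symm, h1]
        omega
      · have hj' : ¬ j = b0 := fun h => hj h.symm
        have hj1' : ¬ j = b1 := fun h => hj1 h.symm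
        simp [hj, hj', hj1, hj1']
  · intro c
    obtain ⟨L, hL, hinf⟩ := forms (N := ![2, 2, 2]) peuclid222 (c (Sum.inl b0))
      ![c (Sum.inr 0), c (Sum.inl b1), c (Sum.inr 1)]
    refine ⟨L, hL, hinf.mono ?_⟩
    rintro t ⟨htL, ht0, ht⟩
    refine ⟨htL, ht0, fun j => ?_⟩
    have hcL : ∀ s, InL L (1 + PowerSeries.C (c s) * t) := fun s => inL_one.add ((inL_C _).mul htL)
    have hc0 : ∀ s, PowerSeries.constantCoeff (1 + PowerSeries.C (c s) * t) = 1 := fun s => by simp [ht0]
    obtain ⟨y, hyL, hy0, hy⟩ := ht 0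
    obtain ⟨z, hzL, hz0, hz⟩ := ht 1
    obtain ⟨w, hwL, hw0, hw⟩ := ht 2
    simp only [Matrix.cons_val_zero, Matrix.cons_val_one, Matrix.cons_val_two, Matrix.head_cons,
      Matrix.tail_cons, Matrix.cons_val] at hy hz hw
    by_cases hj : b0 = j
    · subst hj
      refine ⟨(1 + PowerSeries.C (c (Sum.inl b0)) * t) * y, (hcL _).mul hyL,
        by rw [map_mul, hc0, hy0, one_mul], ?_⟩
      have hb' : ¬ b1 = b0 := hb.symm
      simp only [Sum.elim_inl, Sum.elim_inr, if_true, Matrix.cons_val_zero, Matrix.cons_val_one,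
        hb', if_false, mul_one, Fin.prod_univ_two]
      rw [← hy, h0, mul_pow, mul_pow, ← pow_mul, two_mul μ0, pow_add, pow_add]
      ring
    · by_cases hj1 : b1 = j
      · subst hj1
        refine ⟨(1 + PowerSeries.C (c (Sum.inl b0)) * t) * z * w, ((hcL _).mul hzL).mul hwL,
          by rw [map_mul, map_mul, hc0, hz0, hw0, one_mul, one_mul], ?_⟩
        simp only [Sum.elim_inl, Sum.elim_inr, if_true, Matrix.cons_val_zero, Matrix.cons_val_one,
          hb.symm, hb, if_false, one_mul, Fin.prod_univ_two]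
        rw [← hz, ← hw, h1, mul_pow, mul_pow, mul_pow, mul_pow, ← pow_mul, ← pow_mul, two_mul μ1,
          pow_add, pow_add, pow_add]
        ring
      · have hj' : ¬ j = b0 := fun h => hj h.symm
        have hj1' : ¬ j = b1 := fun h => hj1 h.symm
        refine ⟨1 + PowerSeries.C (c (Sum.inl j)) * t, hcL _, hc0 _, ?_⟩
        simp [hj, hj', hj1, hj1']

/-- all cases -/
theorem good_line {n r : ℕ} (hn : 1 ≤ n) (m : Fin r → ℕ) (hm : ∀ i, 2 ≤ m i)
    (f : Fin r → MvPolynomial (Fin n) k)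
    (e : Fin r → ℕ) (hdeg : ∀ i, (f i).totalDegree ≤ m i * e i)
    (he : ∑ i, (m i - 1) * e i ≤ n + 1)
    (hcy : ∑ i, (m i - 1) * e i = n + 1 →
      (∃ i, e i ≠ 0 ∧ (3 ∣ m i ∨ 4 ∣ m i)) ∨ 2 ≤ ∑ i with 2 ∣ m i, e i)
    (p : Fin n → k) (hp : ∀ i, MvPolynomial.eval p (f i) ≠ 0) :
    ∃ v : Fin n → k, v ≠ 0 ∧ ∃ L : IntermediateField k (Om k), CurveL L ∧
      (GoodS m f p v L).Infinite := by
  classical
  have hm0 : ∀ i, m i ≠ 0 := fun i => by have := hm i; omega
  by_cases hM : ∀ i, e i = 0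
  · refine good_const hn m f (fun i => ?_) p
    have := hdeg i
    simp_all
  · push Not at hM
    obtain ⟨i0, hi0⟩ := hM
    by_cases hlt : ∑ i, (m i - 1) * e i ≤ n
    · exact good_fano m hm f e hdeg hlt ⟨i0, ⟨0, Nat.pos_of_ne_zero hi0⟩⟩ p hp
    · rcases hcy (by omega) with ⟨i, hi, h3 | h4⟩ | h2
      · obtain ⟨μ, hμ⟩ := h3
        have := hm i
        exact good_triple (α0 := μ) (α1 := μ) (α2 := μ) m hm0 f e hdeg he
          ⟨i, ⟨0, Nat.pos_of_ne_zero hi⟩⟩ (by omega) (by simp only; omega)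
          (N0 := 3) (N1 := 3) (by simp only; omega) (by simp only; omega) peuclid33 p hp
      · obtain ⟨μ, hμ⟩ := h4
        have := hm i
        exact good_triple (α0 := μ) (α1 := μ) (α2 := 2 * μ) m hm0 f e hdeg he
          ⟨i, ⟨0, Nat.pos_of_ne_zero hi⟩⟩ (by omega) (by simp only; omega)
          (N0 := 4) (N1 := 2) (by simp only; omega) (by simp only; omega) peuclid42 p hp
      · -- two even slots
        have hcard : 1 < (Finset.univ.filter fun j : Σ i : Fin r, Fin (e i) => 2 ∣ m j.1).card := by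
          rw [Finset.card_filter, Fintype.sum_sigma]
          rw [Finset.sum_filter] at h2
          refine lt_of_lt_of_le h2 (Finset.sum_le_sum fun i _ => ?_)
          split_ifs <;> simp
        obtain ⟨b0, hb0, b1, hb1, hb⟩ := Finset.one_lt_card.1 hcard
        simp only [Finset.mem_filter, Finset.mem_univ, true_and] at hb0 hb1
        obtain ⟨μ0, hμ0⟩ := hb0
        obtain ⟨μ1, hμ1⟩ := hb1
        exact good_double m hm0 f e hdeg he b0 b1 hb μ0 μ1 hμ0 hμ1 p hp

end Pool.Agent.H734R3.PG
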