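import Mathlib
import Pool.Agent.H734R3.PG.Line

/-!
# The function field and its place
-/

set_option autoImplicit false

namespace Pool.Agent.H734R3.PG

universe u

/-- `K` is a function field in one variable over `k`: it is generated over `k` by a transcendental
element `t` and finitely many elements algebraic over `k(t)`. -/
def IsFunctionField (k K : Type u) [Field k] [Field K] [Algebra k K] : Prop :=
  ∃ (t : K) (s : Finset K), Transcendental k t ∧
    (∀ y ∈ s, IsAlgebraic (IntermediateField.adjoin k {t}) y) ∧
    IntermediateField.adjoin k (insert t (s : Set K)) = ⊤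

variable {k : Type u} [Field k]

/-- power series as a valuation ring of the field of Laurent series -/
noncomputable def OO (k : Type u) [Field k] : ValuationSubring (Om k) where
  toSubring := (algebraMap (PowerSeries k) (Om k)).range
  mem_or_inv_mem' x := by
    rcases ValuationRing.isInteger_or_isInteger (PowerSeries k) x with ⟨a, ha⟩ | ⟨a, ha⟩
    · exact Or.inl ⟨a, ha⟩
    · exact Or.inr ⟨a, ha⟩

theorem mem_OO {x : Om k} : x ∈ OO k ↔ ∃ F, algebraMap (PowerSeries k) (Om k) F = x := Iff.rfl

/-- the place of `L` -/
noncomputable def place (L : IntermediateField k (Om k)) : ValuationSubring L :=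
  (OO k).comap (algebraMap L (Om k))

theorem mem_place {L : IntermediateField k (Om k)} {x : L} :
    x ∈ place L ↔ ∃ F, algebraMap (PowerSeries k) (Om k) F = (x : Om k) := Iff.rfl

theorem algebraMap_inj : Function.Injective (algebraMap (PowerSeries k) (Om k)) :=
  IsFractionRing.injective _ _

theorem place_lt {L : IntermediateField k (Om k)} {x : L} {F : PowerSeries k}
    (h : algebraMap (PowerSeries k) (Om k) F = (x : Om k))
    (hF : PowerSeries.constantCoeff F = 0) : (place L).valuation x < 1 := by
  by_contra hcon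
  rw [not_lt] at hcon
  have hx : x ≠ 0 := by
    rintro rfl
    rw [map_zero] at hcon
    exact absurd hcon (not_le.2 zero_lt_one)
  have h1 : (place L).valuation x⁻¹ ≤ 1 := by
    rw [map_inv₀]
    exact inv_le_one_of_one_le₀ hcon
  rw [ValuationSubring.valuation_le_one_iff] at h1
  obtain ⟨G, hG⟩ := mem_place.1 h1
  have h2 : algebraMap (PowerSeries k) (Om k) (F * G) = algebraMap (PowerSeries k) (Om k) 1 := by
    rw [map_mul, h, hG, map_one]
    have : (x : Om k) ≠ 0 := fun h => hx (Subtype.ext h)
    show (x : Om k) * ((x⁻¹ : L) : Om k) = 1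
    push_cast
    exact mul_inv_cancel₀ this
  have h3 := congrArg PowerSeries.constantCoeff (algebraMap_inj h2)
  rw [map_mul, hF, zero_mul, map_one] at h3
  exact zero_ne_one h3

theorem curveL_isFunctionField {L : IntermediateField k (Om k)} (hL : CurveL L) :
    IsFunctionField k L ∧ (∀ a : k, algebraMap k L a ∈ place L) ∧ place L ≠ ⊤ := by
  classical
  obtain ⟨s, hLs, hs⟩ := hL
  have hτ : algebraMap (PowerSeries k) (Om k) PowerSeries.X ∈ L := by
    rw [hLs]
    exact IntermediateField.subset_adjoin k _ (Set.mem_insert _ _)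
  have hsL : ∀ y ∈ s, y ∈ L := by
    intro y hy
    rw [hLs]
    exact IntermediateField.subset_adjoin k _ (Set.mem_insert_of_mem _ hy)
  obtain ⟨t, ht⟩ : ∃ t : L, (t : Om k) = algebraMap (PowerSeries k) (Om k) PowerSeries.X :=
    ⟨⟨_, hτ⟩, rfl⟩
  refine ⟨⟨t, s.attach.image fun y => ⟨y.1, hsL y.1 y.2⟩, ?_, ?_, ?_⟩, ?_, ?_⟩
  · rw [transcendental_iff]
    intro P hP
    have h1 : Polynomial.aeval (t : Om k) P = 0 := by
      have := congrArg (L.val) hP
      rw [← Polynomial.aeval_algHom_apply, map_zero] at this
      exact this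
    have h2 : Polynomial.aeval (PowerSeries.X : PowerSeries k) P = 0 := by
      apply algebraMap_inj
      rw [map_zero, ← Polynomial.aeval_algebraMap_apply, ← ht, h1]
    have h3 : Polynomial.aeval (PowerSeries.X : PowerSeries k) =
        (Polynomial.coeToPowerSeries.algHom k : Polynomial k →ₐ[k] PowerSeries k) := by
      apply Polynomial.algHom_ext
      simp
    rw [h3] at h2
    have h4 : (P : PowerSeries k) = ((0 : Polynomial k) : PowerSeries k) := by
      simpa using h2
    exact Polynomial.coe_injective _ h4
  · intro y hy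
    obtain ⟨⟨y', hy'⟩, -, rfl⟩ := Finset.mem_image.1 hy
    obtain ⟨a, ha⟩ := hs y' hy'
    have h1 : IsIntegral (IntermediateField.adjoin k {t}) ((⟨y', hsL y' hy'⟩ : L) ^ 2) := by
      have h2 : (⟨y', hsL y' hy'⟩ : L) ^ 2 = algebraMap (IntermediateField.adjoin k {t}) L
          ⟨1 + algebraMap k L a ^ 2 * t ^ 2,
            add_mem (one_mem _) (mul_mem (pow_mem (IntermediateField.algebraMap_mem _ _) 2)
              (pow_mem (IntermediateField.mem_adjoin_simple_self k t) 2))⟩ := by
        apply Subtype.ext
        show y' ^ 2 = 1 + algebraMap k (Om k) a ^ 2 * (t : Om k) ^ 2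
        rw [ha, ht]
      rw [h2]
      exact isIntegral_algebraMap
    exact (IsIntegral.of_pow (by norm_num) h1).isAlgebraic
  · apply IntermediateField.lift_injective L
    rw [IntermediateField.lift_adjoin, IntermediateField.lift_top, Set.image_insert_eq, ht]
    have h1 : Subtype.val '' ((s.attach.image fun y => (⟨y.1, hsL y.1 y.2⟩ : L) : Finset L) :
        Set L) = (s : Set (Om k)) := by
      ext y
      constructor
      · rintro ⟨y', hy', rfl⟩
        obtain ⟨⟨a, ha⟩, -, rfl⟩ := Finset.mem_image.1 (Finset.mem_coe.1 hy')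
        exact ha
      · intro hy
        exact ⟨⟨y, hsL y hy⟩, Finset.mem_coe.2 (Finset.mem_image.2 ⟨⟨y, hy⟩,
          Finset.mem_attach _ _, rfl⟩), rfl⟩
    rw [h1]
    exact hLs.symm
  · intro a
    refine mem_place.2 ⟨PowerSeries.C a, ?_⟩
    show _ = algebraMap k (Om k) a
    rw [IsScalarTower.algebraMap_apply k (PowerSeries k) (Om k)]
    rfl
  · intro h
    have h1 : t⁻¹ ∈ place L := by
      rw [h]
      trivial
    obtain ⟨F, hF⟩ := mem_place.1 h1
    have hX0 : algebraMap (PowerSeries k) (Om k) PowerSeries.X ≠ 0 := by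
      rw [Ne, map_eq_zero_iff _ algebraMap_inj]
      exact PowerSeries.X_ne_zero
    have h2 : algebraMap (PowerSeries k) (Om k) (PowerSeries.X * F) =
        algebraMap (PowerSeries k) (Om k) 1 := by
      rw [map_mul, hF, map_one]
      push_cast
      rw [ht]
      exact mul_inv_cancel₀ hX0
    have h3 := congrArg PowerSeries.constantCoeff (algebraMap_inj h2)
    simp at h3

end Pool.Agent.H734R3.PG
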