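import Mathlib
import Pool.Agent.H734R3.PG.Field
import Pool.Agent.H734R3.LV.Main

/-!
# Multi-cyclic covers of Calabi-Yau or Fano type are not pseudo-geometrically hyperbolic
-/

set_option autoImplicit false

namespace Pool.Agent.H734R3.PG

open MvPolynomial Pool.Agent.H734R3.LV

universe u


variable {k : Type u} [Field k] {N : ℕ}

/-- The `K`-points of the projective variety `X` over `k` which specialize to the point `x` at the
place `O` of the function field `K`. They are the morphisms to `X`, defined over `k`, from the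
curve with function field `K`, which map the point with local ring `O` to `x`. -/
def homs (X : Set (PP k N)) (K : Type u) [Field K] [Algebra k K] (O : ValuationSubring K)
    (x : PP k N) : Set (PP K N) :=
  {P | (∀ (d : ℕ) (G : MvPolynomial (Fin (N + 1)) k), G.IsHomogeneous d →
      (∀ y ∈ X, eval y.rep G = 0) → aeval P.rep G = 0) ∧
    ∃ (z : Fin (N + 1) → K) (hz : z ≠ 0) (a : Fin (N + 1) → k) (ha : a ≠ 0),
      Projectivization.mk K z hz = P ∧ Projectivization.mk k a ha = x ∧
        ∀ j, O.valuation (z j - algebraMap k K (a j)) < 1}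

/-- Some Zariski closed subset `Δ` not containing `X` has the following property: for every point
`x` of `X` outside `Δ` and every pointed curve, given by its function field `K` and the local ring
`O` of the point, there are only finitely many morphisms from the pointed curve to `(X, x)`. -/
def PseudoGeomHyp (X : Set (PP k N)) : Prop :=
  ∃ Δ : Set (PP k N), IsZClosed Δ ∧ ¬ X ⊆ Δ ∧
    ∀ (K : Type u) [Field K] [Algebra k K] (O : ValuationSubring K), IsFunctionField k K →
      (∀ a : k, algebraMap k K a ∈ O) → O ≠ ⊤ → ∀ x ∈ X, x ∉ Δ → (homs X K O x).Finite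

/-- `(Φ_0 : ... : Φ_N)` is a dominant rational map from the multi-cyclic cover to `X`, defined where
`D ≠ 0`, and generically finite: every `x_j` is there a root of a nonzero polynomial whose
coefficients are forms of equal degree in `Φ_0, ..., Φ_N`. -/
structure AlgDom {n r : ℕ} (m : Fin r → ℕ) (f : Fin r → MvPolynomial (Fin n) k)
    (X : Set (PP k N)) (Φ : Fin (N + 1) → MvPolynomial (Fin n ⊕ Fin r) k)
    (D : MvPolynomial (Fin n ⊕ Fin r) k) : Prop where
  maps : ∀ z ∈ Cov m f, eval z D ≠ 0 → ∃ h : vec Φ z ≠ 0, Projectivization.mk k (vec Φ z) h ∈ X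
  alg : ∀ j : Fin n, ∃ (l d : ℕ) (Q : Fin l → MvPolynomial (Fin (N + 1)) k),
    (∀ i, (Q i).IsHomogeneous d) ∧ ∀ z ∈ Cov m f, eval z D ≠ 0 →
      ∑ i, eval (vec Φ z) (Q i) * z (Sum.inl j) ^ (i : ℕ) = 0 ∧ ∃ i, eval (vec Φ z) (Q i) ≠ 0
  dense : ∀ Δ : Set (PP k N), IsZClosed Δ →
    (∀ z ∈ Cov m f, eval z D ≠ 0 → ∀ h : vec Φ z ≠ 0, Projectivization.mk k (vec Φ z) h ∈ Δ) →
    X ⊆ Δ

theorem aeval_restr {n : ℕ} (G : MvPolynomial (Fin n) k) (p v : Fin n → k) (t : PowerSeries k) :
    Polynomial.aeval t (restr G p v) = aeval (fun i => PowerSeries.C (p i) + t * PowerSeries.C (v i)) G := by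
  have h : (Polynomial.aeval t).comp (aeval (fun i => Polynomial.C (p i) +
      Polynomial.X * Polynomial.C (v i)) : MvPolynomial (Fin n) k →ₐ[k] Polynomial k) =
      (aeval (fun i => PowerSeries.C (p i) + t * PowerSeries.C (v i)) :
        MvPolynomial (Fin n) k →ₐ[k] PowerSeries k) := by
    apply MvPolynomial.algHom_ext
    intro i
    simp only [AlgHom.comp_apply, aeval_X, map_add, map_mul, Polynomial.aeval_C,
      Polynomial.aeval_X]
    rfl
  exact DFunLike.congr_fun h G

theorem cc_aeval {σ : Type*} (z : σ → PowerSeries k) (H : MvPolynomial σ k) :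
    PowerSeries.constantCoeff (aeval z H) = eval (fun a => PowerSeries.constantCoeff (z a)) H := by
  induction H using MvPolynomial.induction_on with
  | C a =>
    rw [aeval_C, eval_C]
    exact PowerSeries.constantCoeff_C a
  | add p q hp hq => rw [map_add, map_add, hp, hq, map_add]
  | mul_X p i hp => rw [map_mul, map_mul, hp, aeval_X, map_mul, eval_X]

theorem inL_aeval {L : IntermediateField k (Om k)} {σ : Type*} (z : σ → PowerSeries k)
    (hz : ∀ a, InL L (z a)) (H : MvPolynomial σ k) : InL L (aeval z H) := by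
  induction H using MvPolynomial.induction_on with
  | C a =>
    rw [aeval_C]
    exact inL_C a
  | add p q hp hq => rw [map_add]; exact hp.add hq
  | mul_X p i hp => rw [map_mul, aeval_X]; exact hp.mul (hz i)

/-- polynomials vanishing on the general part of the cover vanish at power series points -/
theorem vanish [IsAlgClosed k] {n r : ℕ} (m : Fin r → ℕ) (hm0 : ∀ i, m i ≠ 0)
    (f : Fin r → MvPolynomial (Fin n) k)
    (D H : MvPolynomial (Fin n ⊕ Fin r) k) (hH : ∀ z ∈ Cov m f, eval z D ≠ 0 → eval z H = 0)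
    (z : Fin n ⊕ Fin r → PowerSeries k)
    (hz : ∀ i, z (Sum.inr i) ^ m i = aeval (fun j => z (Sum.inl j)) (f i))
    (hz0 : ∀ i, z (Sum.inr i) ≠ 0) (hD : aeval z D ≠ 0) : aeval z H = 0 := by
  classical
  set g : Fin r → MvPolynomial (Fin n ⊕ Fin r) k := fun i =>
    X (Sum.inr i) ^ m i - rename Sum.inl (f i) with hg
  set I : Ideal (MvPolynomial (Fin n ⊕ Fin r) k) := Ideal.span (Set.range g) with hI
  have hmem : H * D * ∏ i, X (Sum.inr i) ∈ I.radical := by
    rw [← vanishingIdeal_zeroLocus_eq_radical (K := k) I, mem_vanishingIdeal_iff]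
    intro x hx
    rw [mem_zeroLocus_iff] at hx
    rw [aeval_eq_eval]
    show eval x (H * D * ∏ i, X (Sum.inr i)) = 0
    by_cases hD' : eval x D = 0
    · rw [map_mul, map_mul, hD', mul_zero, zero_mul]
    by_cases hw : ∃ i, x (Sum.inr i) = 0
    · obtain ⟨i, hi⟩ := hw
      rw [map_mul, map_prod, Finset.prod_eq_zero (Finset.mem_univ i), mul_zero]
      rw [eval_X, hi]
    · push Not at hw
      have hxC : x ∈ Cov m f := by
        intro i
        refine ⟨hw i, ?_⟩
        have h1 := hx (g i) (Ideal.subset_span ⟨i, rfl⟩)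
        rw [aeval_eq_eval] at h1
        have h2 : eval x (g i) = 0 := h1
        rw [hg] at h2
        simp only [map_sub, map_pow, eval_X, eval_rename, sub_eq_zero] at h2
        exact h2
      rw [map_mul, map_mul, hH x hxC hD', zero_mul, zero_mul]
  obtain ⟨M, hM⟩ := hmem
  have hle : I ≤ RingHom.ker (aeval z : MvPolynomial (Fin n ⊕ Fin r) k →ₐ[k] PowerSeries k) := by
    rw [hI, Ideal.span_le]
    rintro _ ⟨i, rfl⟩
    show aeval z (g i) = 0
    rw [hg]
    simp only [map_sub, map_pow, aeval_X]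
    rw [aeval_rename, hz i, sub_eq_zero]
    rfl
  have h1 : aeval z ((H * D * ∏ i, X (Sum.inr i)) ^ M) = 0 := hle hM
  rw [map_pow] at h1
  have h2 : aeval z (H * D * ∏ i, X (Sum.inr i)) = 0 := IsReduced.eq_zero _ ⟨M, h1⟩
  rw [map_mul, map_mul, map_prod] at h2
  rcases mul_eq_zero.1 h2 with h3 | h3
  · exact (mul_eq_zero.1 h3).resolve_right hD
  · obtain ⟨i, -, hi⟩ := Finset.prod_eq_zero_iff.1 h3
    rw [aeval_X] at hi
    exact absurd hi (hz0 i)

theorem aeval_bind {σ ι : Type*} {R : Type*} [CommRing R] [Algebra k R] (z : σ → R)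
    (Φ : ι → MvPolynomial σ k) (G : MvPolynomial ι k) :
    aeval z (bind₁ Φ G) = aeval (fun j => aeval z (Φ j)) G := by
  have h : (aeval z : MvPolynomial σ k →ₐ[k] R).comp (bind₁ Φ) =
      aeval (fun j => aeval z (Φ j)) := by
    apply MvPolynomial.algHom_ext
    intro i
    simp
  exact DFunLike.congr_fun h G

theorem eval_bind {σ : Type*} (Φ : Fin (N + 1) → MvPolynomial σ k) (z : σ → k)
    (G : MvPolynomial (Fin (N + 1)) k) : eval z (bind₁ Φ G) = eval (vec Φ z) G :=
  eval₂Hom_bind₁ _ _ _ _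

theorem aeval_smul_homog {K : Type*} [Field K] [Algebra k K] {G : MvPolynomial (Fin (N + 1)) k}
    {d : ℕ} (hG : G.IsHomogeneous d) (a : K) (y : Fin (N + 1) → K) :
    aeval (fun i => a * y i) G = a ^ d * aeval y G := by
  have h : ∀ y : Fin (N + 1) → K, aeval y G = eval y (map (algebraMap k K) G) := by
    intro y
    rw [eval_map]
    rfl
  rw [h, h]
  exact eval_smul_homog (hG.map _) a y

theorem rep_eq {K : Type*} [Field K] (y : Fin (N + 1) → K) (hy : y ≠ 0) :
    ∃ a : K, a ≠ 0 ∧ (Projectivization.mk K y hy).rep = fun i => a * y i := by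
  obtain ⟨a, ha⟩ := Projectivization.exists_smul_eq_mk_rep K y hy
  refine ⟨a, a.ne_zero, ?_⟩
  rw [← ha]
  rfl

theorem coe_aeval {L : IntermediateField k (Om k)} (W : Fin (N + 1) → L)
    (V : Fin (N + 1) → PowerSeries k) (h : ∀ j, (W j : Om k) = algebraMap _ _ (V j))
    (G : MvPolynomial (Fin (N + 1)) k) :
    ((aeval W G : L) : Om k) = algebraMap (PowerSeries k) (Om k) (aeval V G) := by
  have h1 : L.val (aeval W G) = aeval (fun j => L.val (W j)) G :=
    comp_aeval_apply W L.val G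
  have h2 : (IsScalarTower.toAlgHom k (PowerSeries k) (Om k)) (aeval V G) =
      aeval (fun j => (IsScalarTower.toAlgHom k (PowerSeries k) (Om k)) (V j)) G :=
    comp_aeval_apply V (IsScalarTower.toAlgHom k (PowerSeries k) (Om k)) G
  have h3 : (fun j => L.val (W j)) = fun j =>
      (IsScalarTower.toAlgHom k (PowerSeries k) (Om k)) (V j) := funext h
  rw [h3, ← h2] at h1
  exact h1

theorem main [IsAlgClosed k] [CharZero k] {n r : ℕ} (hn : 1 ≤ n) (m : Fin r → ℕ)
    (hm : ∀ i, 2 ≤ m i)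
    (f : Fin r → MvPolynomial (Fin n) k) (e : Fin r → ℕ)
    (hdeg : ∀ i, (f i).totalDegree ≤ m i * e i) (he : ∑ i, (m i - 1) * e i ≤ n + 1)
    (hcy : ∑ i, (m i - 1) * e i = n + 1 →
      (∃ i, e i ≠ 0 ∧ (3 ∣ m i ∨ 4 ∣ m i)) ∨ 2 ≤ ∑ i with 2 ∣ m i, e i)
    (X : Set (PP k N)) (Φ : Fin (N + 1) → MvPolynomial (Fin n ⊕ Fin r) k)
    (D : MvPolynomial (Fin n ⊕ Fin r) k) (hΦ : AlgDom m f X Φ D) : ¬ PseudoGeomHyp X := by
  classical
  have hm0 : ∀ i, m i ≠ 0 := fun i => by have := hm i; omega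
  rintro ⟨Δ, hΔ, hXΔ, hfin⟩
  -- a point of the cover mapping outside `Δ`
  obtain ⟨z0, hz0, hD0, h0, hΔ0⟩ : ∃ z ∈ Cov m f, eval z D ≠ 0 ∧ ∃ h : vec Φ z ≠ 0,
      Projectivization.mk k (vec Φ z) h ∉ Δ := by
    by_contra hcon
    push Not at hcon
    exact hXΔ (hΦ.dense Δ hΔ fun z hz hD h => hcon z hz hD h)
  have hxX : Projectivization.mk k (vec Φ z0) h0 ∈ X := (hΦ.maps z0 hz0 hD0).2
  set p : Fin n → k := fun j => z0 (Sum.inl j) with hp
  set w0 : Fin r → k := fun i => z0 (Sum.inr i) with hw0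
  have hfp : ∀ i, eval p (f i) ≠ 0 := fun i => by
    rw [← (hz0 i).2]
    exact pow_ne_zero _ (hz0 i).1
  obtain ⟨v, hv, L, hL, hinf⟩ := good_line hn m hm f e hdeg he hcy p hfp
  obtain ⟨hK, hk, htop⟩ := curveL_isFunctionField hL
  have hfinh := hfin L (place L) hK hk htop _ hxX hΔ0
  -- the power series points
  have key : ∀ t ∈ GoodS m f p v L, ∃ z : Fin n ⊕ Fin r → PowerSeries k,
      (∀ j, z (Sum.inl j) = PowerSeries.C (p j) + t * PowerSeries.C (v j)) ∧ (∀ a, InL L (z a)) ∧
      (fun a => PowerSeries.constantCoeff (z a)) = z0 ∧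
      ∀ i, z (Sum.inr i) ^ m i = aeval (fun j => z (Sum.inl j)) (f i) := by
    rintro t ⟨htL, ht0, ht⟩
    choose y hyL hy0 hy using ht
    refine ⟨Sum.elim (fun j => PowerSeries.C (p j) + t * PowerSeries.C (v j)) (fun i => PowerSeries.C (w0 i) * y i),
      fun j => rfl, ?_, ?_, ?_⟩
    · rintro (j | i)
      · exact (inL_C _).add (htL.mul (inL_C _))
      · exact (inL_C _).mul (hyL i)
    · funext a
      rcases a with j | i
      · simp [ht0, hp]
      · simp [hy0, hw0]
    · intro i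
      show (PowerSeries.C (w0 i) * y i) ^ m i = aeval (fun j => PowerSeries.C (p j) + t * PowerSeries.C (v j)) (f i)
      rw [← aeval_restr, ← hy i, mul_pow, ← map_pow]
      congr 2
      exact (hz0 i).2
  choose! Z hZ1 hZ2 hZ3 hZ4 using key
  have hZr : ∀ t ∈ GoodS m f p v L, ∀ i, Z t (Sum.inr i) ≠ 0 := by
    intro t ht i h
    have h1 := congrFun (hZ3 t ht) (Sum.inr i)
    simp only [h, map_zero] at h1
    exact (hz0 i).1 h1.symm
  have hZD : ∀ t ∈ GoodS m f p v L, aeval (Z t) D ≠ 0 := by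
    intro t ht h
    have h1 := cc_aeval (Z t) D
    rw [h, hZ3 t ht, map_zero] at h1
    exact hD0 h1.symm
  have hvan : ∀ t ∈ GoodS m f p v L, ∀ H : MvPolynomial (Fin n ⊕ Fin r) k,
      (∀ z ∈ Cov m f, eval z D ≠ 0 → eval z H = 0) → aeval (Z t) H = 0 := fun t ht H hH =>
    vanish m hm0 f D H hH (Z t) (hZ4 t ht) (hZr t ht) (hZD t ht)
  have hpt : ∀ t ∈ GoodS m f p v L, ∃ P ∈ homs X L (place L) (Projectivization.mk k (vec Φ z0) h0),
      ∃ (W : Fin (N + 1) → L) (hW : W ≠ 0), Projectivization.mk L W hW = P ∧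
        ∀ j, (W j : Om k) = algebraMap (PowerSeries k) (Om k) (aeval (Z t) (Φ j)) := by
    intro t ht
    obtain ⟨W, hWd⟩ : ∃ W : Fin (N + 1) → L, ∀ j, (W j : Om k) =
        algebraMap (PowerSeries k) (Om k) (aeval (Z t) (Φ j)) :=
      ⟨fun j => ⟨_, inL_aeval (Z t) (hZ2 t ht) (Φ j)⟩, fun j => rfl⟩
    have hccΦ : ∀ j, PowerSeries.constantCoeff (aeval (Z t) (Φ j)) = vec Φ z0 j := by
      intro j
      rw [cc_aeval, hZ3 t ht]
      rfl
    have hW : W ≠ 0 := by
      intro h
      apply h0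
      funext j
      have h1 : algebraMap (PowerSeries k) (Om k) (aeval (Z t) (Φ j)) = 0 := by
        rw [← hWd, h]
        rfl
      rw [← hccΦ, (map_eq_zero_iff _ algebraMap_inj).1 h1]
      simp
    refine ⟨_, ⟨?_, W, hW, vec Φ z0, h0, rfl, rfl, ?_⟩, W, hW, rfl, hWd⟩
    · intro d G hG hGX
      obtain ⟨a, -, ha⟩ := rep_eq W hW
      rw [ha, aeval_smul_homog hG]
      have h1 : aeval W G = 0 := by
        apply Subtype.ext
        rw [coe_aeval W _ hWd, ← aeval_bind, hvan t ht]
        · rw [map_zero]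
          rfl
        · intro z hz hD
          rw [eval_bind]
          obtain ⟨h, hX⟩ := hΦ.maps z hz hD
          exact (van_mk hG _ h).1 (hGX _ hX)
      rw [h1, mul_zero]
    · intro j
      refine place_lt (F := aeval (Z t) (Φ j) - PowerSeries.C (vec Φ z0 j)) ?_ ?_
      · rw [map_sub, ← hWd]
        show _ = (W j : Om k) - ((algebraMap k L (vec Φ z0 j) : L) : Om k)
        congr 1
      · rw [map_sub, hccΦ, PowerSeries.constantCoeff_C, sub_self]
  obtain ⟨t0, ht0⟩ := hinf.nonempty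
  have : Nonempty (PP L N) := ⟨(hpt t0 ht0).choose⟩
  choose! P hP W hW hWP hWZ using hpt
  apply hinf
  refine Set.Finite.of_finite_fibers P (hfinh.subset ?_) fun R _ => ?_
  · rintro _ ⟨t, ht, rfl⟩
    exact hP t ht
  obtain ⟨j0, hj0⟩ : ∃ j, v j ≠ 0 := by
    by_contra h
    push Not at h
    exact hv (funext h)
  obtain ⟨l, d, Q, hQ, hQz⟩ := hΦ.alg j0
  obtain ⟨i0, hi0⟩ := (hQz z0 hz0 hD0).2
  set B : Polynomial L := ∑ i : Fin l, Polynomial.C (aeval R.rep (Q i)) * Polynomial.X ^ (i : ℕ)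
    with hB
  rcases (GoodS m f p v L ∩ P ⁻¹' {R}).eq_empty_or_nonempty with hemp | ⟨t1, ht1, htR⟩
  · rw [hemp]
    exact Set.finite_empty
  have hrel : ∀ t ∈ GoodS m f p v L, P t = R → ∃ a : L, a ≠ 0 ∧ ∀ i, aeval R.rep (Q i) =
      a ^ d * aeval (W t) (Q i) := by
    intro t ht hR
    obtain ⟨a, ha0, ha⟩ := rep_eq (W t) (hW t ht)
    refine ⟨a, ha0, fun i => ?_⟩
    rw [← aeval_smul_homog (hQ i), ← hR, ← hWP t ht, ha]
  have hB0 : B ≠ 0 := by
    intro hB0
    obtain ⟨a, ha0, ha⟩ := hrel t1 ht1 htR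
    have h1 : B.coeff i0 = aeval R.rep (Q i0) := by
      rw [hB, Polynomial.finsetSum_coeff, Finset.sum_eq_single i0]
      · rw [Polynomial.coeff_C_mul, Polynomial.coeff_X_pow, if_pos rfl, mul_one]
      · intro b _ hb
        rw [Polynomial.coeff_C_mul, Polynomial.coeff_X_pow, if_neg, mul_zero]
        intro h
        exact hb (Fin.ext h.symm)
      · simp
    rw [hB0, Polynomial.coeff_zero, ha] at h1
    have h2 : aeval (W t1) (Q i0) = 0 :=
      (mul_eq_zero.1 h1.symm).resolve_left (pow_ne_zero _ ha0)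
    have h3 := coe_aeval (W t1) _ (hWZ t1 ht1) (Q i0)
    rw [h2] at h3
    have h4 : aeval (fun j => aeval (Z t1) (Φ j)) (Q i0) = 0 := by
      apply algebraMap_inj
      rw [← h3, map_zero]
      rfl
    apply hi0
    have h5 := cc_aeval (fun j => aeval (Z t1) (Φ j)) (Q i0)
    rw [h4, map_zero] at h5
    rw [h5]
    congr 2
    funext j
    rw [cc_aeval, hZ3 t1 ht1]
    rfl
  have hinj : Set.InjOn (fun t => algebraMap (PowerSeries k) (Om k) (PowerSeries.C (p j0) + t * PowerSeries.C (v j0)))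
      (GoodS m f p v L ∩ P ⁻¹' {R}) := by
    rintro t - u - h
    have h1 := algebraMap_inj h
    have h2 : t * PowerSeries.C (v j0) = u * PowerSeries.C (v j0) := add_left_cancel h1
    have h3 : (PowerSeries.C (v j0) : PowerSeries k) ≠ 0 := by
      intro h
      apply hj0
      have := congrArg PowerSeries.constantCoeff h
      simpa using this
    exact mul_right_cancel₀ h3 h2
  refine Set.Finite.of_finite_image
    ((B.roots.toFinset.finite_toSet.image (Subtype.val : L → Om k)).subset ?_) hinj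
  rintro _ ⟨t, ⟨ht, hR⟩, rfl⟩
  have hxL : InL L (PowerSeries.C (p j0) + t * PowerSeries.C (v j0)) := (inL_C _).add (ht.1.mul (inL_C _))
  refine ⟨⟨_, hxL⟩, ?_, rfl⟩
  simp only [Finset.mem_coe, Multiset.mem_toFinset]
  rw [Polynomial.mem_roots hB0, Polynomial.IsRoot, hB, Polynomial.eval_finset_sum]
  obtain ⟨a, ha0, ha⟩ := hrel t ht hR
  have h1 : ∑ i : Fin l, aeval (W t) (Q i) * (⟨_, hxL⟩ : L) ^ (i : ℕ) = 0 := by
    apply Subtype.ext
    have h2 : aeval (Z t) (∑ i : Fin l, bind₁ Φ (Q i) * MvPolynomial.X (Sum.inl j0) ^ (i : ℕ)) = 0 := by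
      apply hvan t ht
      intro z hz hD
      rw [map_sum, ← (hQz z hz hD).1]
      refine Finset.sum_congr rfl fun i _ => ?_
      rw [map_mul, map_pow, eval_X, eval_bind]
    have h3 := congrArg (algebraMap (PowerSeries k) (Om k)) h2
    rw [map_zero, map_sum, map_sum] at h3
    have h4 : ((∑ i : Fin l, aeval (W t) (Q i) * (⟨_, hxL⟩ : L) ^ (i : ℕ) : L) : Om k) =
        ∑ i : Fin l, ((aeval (W t) (Q i) : L) : Om k) *
          (algebraMap (PowerSeries k) (Om k) (PowerSeries.C (p j0) + t * PowerSeries.C (v j0))) ^ (i : ℕ) := by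
      push_cast
      rfl
    rw [h4]
    refine Eq.trans (Finset.sum_congr rfl fun i _ => ?_) h3
    rw [coe_aeval (W t) _ (hWZ t ht), map_mul, map_mul, map_pow, map_pow, aeval_X, aeval_bind,
      hZ1 t ht]
  calc ∑ i : Fin l, Polynomial.eval (⟨_, hxL⟩ : L)
        (Polynomial.C (aeval R.rep (Q i)) * Polynomial.X ^ (i : ℕ)) =
      a ^ d * ∑ i : Fin l, aeval (W t) (Q i) * (⟨_, hxL⟩ : L) ^ (i : ℕ) := by
        rw [Finset.mul_sum]
        refine Finset.sum_congr rfl fun i _ => ?_
        rw [Polynomial.eval_mul, Polynomial.eval_C, Polynomial.eval_pow, Polynomial.eval_X, ha]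
        ring
    _ = 0 := by rw [h1, mul_zero]

end Pool.Agent.H734R3.PG
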