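import Mathlib
import Pool.Agent.H734R3.PG.Main

/-!
# Families of multi-cyclic covers
-/

set_option autoImplicit false

namespace Pool.Agent.H734R3.PG

open MvPolynomial Pool.Agent.H734R3.LV

universe u

variable {k : Type u} [Field k] {N : ℕ}

theorem core [IsAlgClosed k] [CharZero k] {n r : ℕ} (hn : 1 ≤ n) (m : Fin r → ℕ)
    (hm : ∀ i, 2 ≤ m i)
    (f : Fin r → MvPolynomial (Fin n) k) (e : Fin r → ℕ)
    (hdeg : ∀ i, (f i).totalDegree ≤ m i * e i) (he : ∑ i, (m i - 1) * e i ≤ n + 1)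
    (hcy : ∑ i, (m i - 1) * e i = n + 1 →
      (∃ i, e i ≠ 0 ∧ (3 ∣ m i ∨ 4 ∣ m i)) ∨ 2 ≤ ∑ i with 2 ∣ m i, e i)
    (X : Set (PP k N)) (Φ : Fin (N + 1) → MvPolynomial (Fin n ⊕ Fin r) k)
    (D : MvPolynomial (Fin n ⊕ Fin r) k)
    (hmaps : ∀ z ∈ Cov m f, eval z D ≠ 0 → ∃ h : vec Φ z ≠ 0,
      Projectivization.mk k (vec Φ z) h ∈ X)
    (halg : ∀ j : Fin n, ∃ (l d : ℕ) (Q : Fin l → MvPolynomial (Fin (N + 1)) k),
      (∀ i, (Q i).IsHomogeneous d) ∧ ∀ z ∈ Cov m f, eval z D ≠ 0 →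
        ∑ i, eval (vec Φ z) (Q i) * z (Sum.inl j) ^ (i : ℕ) = 0 ∧
          ∃ i, eval (vec Φ z) (Q i) ≠ 0)
    (z0 : Fin n ⊕ Fin r → k) (hz0 : z0 ∈ Cov m f) (hD0 : eval z0 D ≠ 0) (h0 : vec Φ z0 ≠ 0) :
    ∃ L : IntermediateField k (Om k), CurveL L ∧
      ¬ (homs X L (place L) (Projectivization.mk k (vec Φ z0) h0)).Finite := by
  classical
  have hm0 : ∀ i, m i ≠ 0 := fun i => by have := hm i; omega
  set p : Fin n → k := fun j => z0 (Sum.inl j) with hp
  set w0 : Fin r → k := fun i => z0 (Sum.inr i) with hw0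
  have hfp : ∀ i, eval p (f i) ≠ 0 := fun i => by
    rw [← (hz0 i).2]
    exact pow_ne_zero _ (hz0 i).1
  obtain ⟨v, hv, L, hL, hinf⟩ := good_line hn m hm f e hdeg he hcy p hfp
  refine ⟨L, hL, fun hfinh => ?_⟩
  -- the power series points
  have key : ∀ t ∈ GoodS m f p v L, ∃ z : Fin n ⊕ Fin r → PowerSeries k,
      (∀ j, z (Sum.inl j) = PowerSeries.C (p j) + t * PowerSeries.C (v j)) ∧ (∀ a, InL L (z a)) ∧
      (fun a => PowerSeries.constantCoeff (z a)) = z0 ∧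
      ∀ i, z (Sum.inr i) ^ m i = aeval (fun j => z (Sum.inl j)) (f i) := by
    rintro t ⟨htL, ht0, ht⟩
    choose y hyL hy0 hy using ht
    refine ⟨Sum.elim (fun j => PowerSeries.C (p j) + t * PowerSeries.C (v j)) (fun i => PowerSeries.C (w0 i) * y i),
      fun j => rfl, ?_, ?_, ?_⟩
    · rintro (j | i)
      · exact (inL_C _).add (htL.mul (inL_C _))
      · exact (inL_C _).mul (hyL i)
    · funext a
      rcases a with j | i
      · simp [ht0, hp]
      · simp [hy0, hw0]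
    · intro i
      show (PowerSeries.C (w0 i) * y i) ^ m i = aeval (fun j => PowerSeries.C (p j) + t * PowerSeries.C (v j)) (f i)
      rw [← aeval_restr, ← hy i, mul_pow, ← map_pow]
      congr 2
      exact (hz0 i).2
  choose! Z hZ1 hZ2 hZ3 hZ4 using key
  have hZr : ∀ t ∈ GoodS m f p v L, ∀ i, Z t (Sum.inr i) ≠ 0 := by
    intro t ht i h
    have h1 := congrFun (hZ3 t ht) (Sum.inr i)
    simp only [h, map_zero] at h1
    exact (hz0 i).1 h1.symm
  have hZD : ∀ t ∈ GoodS m f p v L, aeval (Z t) D ≠ 0 := by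
    intro t ht h
    have h1 := cc_aeval (Z t) D
    rw [h, hZ3 t ht, map_zero] at h1
    exact hD0 h1.symm
  have hvan : ∀ t ∈ GoodS m f p v L, ∀ H : MvPolynomial (Fin n ⊕ Fin r) k,
      (∀ z ∈ Cov m f, eval z D ≠ 0 → eval z H = 0) → aeval (Z t) H = 0 := fun t ht H hH =>
    vanish m hm0 f D H hH (Z t) (hZ4 t ht) (hZr t ht) (hZD t ht)
  have hpt : ∀ t ∈ GoodS m f p v L, ∃ P ∈ homs X L (place L) (Projectivization.mk k (vec Φ z0) h0),
      ∃ (W : Fin (N + 1) → L) (hW : W ≠ 0), Projectivization.mk L W hW = P ∧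
        ∀ j, (W j : Om k) = algebraMap (PowerSeries k) (Om k) (aeval (Z t) (Φ j)) := by
    intro t ht
    obtain ⟨W, hWd⟩ : ∃ W : Fin (N + 1) → L, ∀ j, (W j : Om k) =
        algebraMap (PowerSeries k) (Om k) (aeval (Z t) (Φ j)) :=
      ⟨fun j => ⟨_, inL_aeval (Z t) (hZ2 t ht) (Φ j)⟩, fun j => rfl⟩
    have hccΦ : ∀ j, PowerSeries.constantCoeff (aeval (Z t) (Φ j)) = vec Φ z0 j := by
      intro j
      rw [cc_aeval, hZ3 t ht]
      rfl
    have hW : W ≠ 0 := by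
      intro h
      apply h0
      funext j
      have h1 : algebraMap (PowerSeries k) (Om k) (aeval (Z t) (Φ j)) = 0 := by
        rw [← hWd, h]
        rfl
      rw [← hccΦ, (map_eq_zero_iff _ algebraMap_inj).1 h1]
      simp
    refine ⟨_, ⟨?_, W, hW, vec Φ z0, h0, rfl, rfl, ?_⟩, W, hW, rfl, hWd⟩
    · intro d G hG hGX
      obtain ⟨a, -, ha⟩ := rep_eq W hW
      rw [ha, aeval_smul_homog hG]
      have h1 : aeval W G = 0 := by
        apply Subtype.ext
        rw [coe_aeval W _ hWd, ← aeval_bind, hvan t ht]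
        · rw [map_zero]
          rfl
        · intro z hz hD
          rw [eval_bind]
          obtain ⟨h, hX⟩ := hmaps z hz hD
          exact (van_mk hG _ h).1 (hGX _ hX)
      rw [h1, mul_zero]
    · intro j
      refine place_lt (F := aeval (Z t) (Φ j) - PowerSeries.C (vec Φ z0 j)) ?_ ?_
      · rw [map_sub, ← hWd]
        show _ = (W j : Om k) - ((algebraMap k L (vec Φ z0 j) : L) : Om k)
        congr 1
      · rw [map_sub, hccΦ, PowerSeries.constantCoeff_C, sub_self]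
  obtain ⟨t0, ht0⟩ := hinf.nonempty
  have : Nonempty (PP L N) := ⟨(hpt t0 ht0).choose⟩
  choose! P hP W hW hWP hWZ using hpt
  apply hinf
  refine Set.Finite.of_finite_fibers P (hfinh.subset ?_) fun R _ => ?_
  · rintro _ ⟨t, ht, rfl⟩
    exact hP t ht
  obtain ⟨j0, hj0⟩ : ∃ j, v j ≠ 0 := by
    by_contra h
    push Not at h
    exact hv (funext h)
  obtain ⟨l, d, Q, hQ, hQz⟩ := halg j0
  obtain ⟨i0, hi0⟩ := (hQz z0 hz0 hD0).2
  set B : Polynomial L := ∑ i : Fin l, Polynomial.C (aeval R.rep (Q i)) * Polynomial.X ^ (i : ℕ)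
    with hB
  rcases (GoodS m f p v L ∩ P ⁻¹' {R}).eq_empty_or_nonempty with hemp | ⟨t1, ht1, htR⟩
  · rw [hemp]
    exact Set.finite_empty
  have hrel : ∀ t ∈ GoodS m f p v L, P t = R → ∃ a : L, a ≠ 0 ∧ ∀ i, aeval R.rep (Q i) =
      a ^ d * aeval (W t) (Q i) := by
    intro t ht hR
    obtain ⟨a, ha0, ha⟩ := rep_eq (W t) (hW t ht)
    refine ⟨a, ha0, fun i => ?_⟩
    rw [← aeval_smul_homog (hQ i), ← hR, ← hWP t ht, ha]
  have hB0 : B ≠ 0 := by
    intro hB0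
    obtain ⟨a, ha0, ha⟩ := hrel t1 ht1 htR
    have h1 : B.coeff i0 = aeval R.rep (Q i0) := by
      rw [hB, Polynomial.finsetSum_coeff, Finset.sum_eq_single i0]
      · rw [Polynomial.coeff_C_mul, Polynomial.coeff_X_pow, if_pos rfl, mul_one]
      · intro b _ hb
        rw [Polynomial.coeff_C_mul, Polynomial.coeff_X_pow, if_neg, mul_zero]
        intro h
        exact hb (Fin.ext h.symm)
      · simp
    rw [hB0, Polynomial.coeff_zero, ha] at h1
    have h2 : aeval (W t1) (Q i0) = 0 :=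
      (mul_eq_zero.1 h1.symm).resolve_left (pow_ne_zero _ ha0)
    have h3 := coe_aeval (W t1) _ (hWZ t1 ht1) (Q i0)
    rw [h2] at h3
    have h4 : aeval (fun j => aeval (Z t1) (Φ j)) (Q i0) = 0 := by
      apply algebraMap_inj
      rw [← h3, map_zero]
      rfl
    apply hi0
    have h5 := cc_aeval (fun j => aeval (Z t1) (Φ j)) (Q i0)
    rw [h4, map_zero] at h5
    rw [h5]
    congr 2
    funext j
    rw [cc_aeval, hZ3 t1 ht1]
    rfl
  have hinj : Set.InjOn (fun t => algebraMap (PowerSeries k) (Om k) (PowerSeries.C (p j0) + t * PowerSeries.C (v j0)))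
      (GoodS m f p v L ∩ P ⁻¹' {R}) := by
    rintro t - u - h
    have h1 := algebraMap_inj h
    have h2 : t * PowerSeries.C (v j0) = u * PowerSeries.C (v j0) := add_left_cancel h1
    have h3 : (PowerSeries.C (v j0) : PowerSeries k) ≠ 0 := by
      intro h
      apply hj0
      have := congrArg PowerSeries.constantCoeff h
      simpa using this
    exact mul_right_cancel₀ h3 h2
  refine Set.Finite.of_finite_image
    ((B.roots.toFinset.finite_toSet.image (Subtype.val : L → Om k)).subset ?_) hinj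
  rintro _ ⟨t, ⟨ht, hR⟩, rfl⟩
  have hxL : InL L (PowerSeries.C (p j0) + t * PowerSeries.C (v j0)) := (inL_C _).add (ht.1.mul (inL_C _))
  refine ⟨⟨_, hxL⟩, ?_, rfl⟩
  simp only [Finset.mem_coe, Multiset.mem_toFinset]
  rw [Polynomial.mem_roots hB0, Polynomial.IsRoot, hB, Polynomial.eval_finset_sum]
  obtain ⟨a, ha0, ha⟩ := hrel t ht hR
  have h1 : ∑ i : Fin l, aeval (W t) (Q i) * (⟨_, hxL⟩ : L) ^ (i : ℕ) = 0 := by
    apply Subtype.ext
    have h2 : aeval (Z t) (∑ i : Fin l, bind₁ Φ (Q i) * MvPolynomial.X (Sum.inl j0) ^ (i : ℕ)) = 0 := by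
      apply hvan t ht
      intro z hz hD
      rw [map_sum, ← (hQz z hz hD).1]
      refine Finset.sum_congr rfl fun i _ => ?_
      rw [map_mul, map_pow, eval_X, eval_bind]
    have h3 := congrArg (algebraMap (PowerSeries k) (Om k)) h2
    rw [map_zero, map_sum, map_sum] at h3
    have h4 : ((∑ i : Fin l, aeval (W t) (Q i) * (⟨_, hxL⟩ : L) ^ (i : ℕ) : L) : Om k) =
        ∑ i : Fin l, ((aeval (W t) (Q i) : L) : Om k) *
          (algebraMap (PowerSeries k) (Om k) (PowerSeries.C (p j0) + t * PowerSeries.C (v j0))) ^ (i : ℕ) := by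
      push_cast
      rfl
    rw [h4]
    refine Eq.trans (Finset.sum_congr rfl fun i _ => ?_) h3
    rw [coe_aeval (W t) _ (hWZ t ht), map_mul, map_mul, map_pow, map_pow, aeval_X, aeval_bind,
      hZ1 t ht]
  calc ∑ i : Fin l, Polynomial.eval (⟨_, hxL⟩ : L)
        (Polynomial.C (aeval R.rep (Q i)) * Polynomial.X ^ (i : ℕ)) =
      a ^ d * ∑ i : Fin l, aeval (W t) (Q i) * (⟨_, hxL⟩ : L) ^ (i : ℕ) := by
        rw [Finset.mul_sum]
        refine Finset.sum_congr rfl fun i _ => ?_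
        rw [Polynomial.eval_mul, Polynomial.eval_C, Polynomial.eval_pow, Polynomial.eval_X, ha]
        ring
    _ = 0 := by rw [h1, mul_zero]


/-- the total space (unramified part) `{(x, y, w) : w_i ^ m_i = f_i(x, y) ≠ 0}` of the family of
multi-cyclic covers of affine `n`-space with parameters `y` defined by polynomials
`f_i` in `k[y][x]` -/
def FCov {n s r : ℕ} (m : Fin r → ℕ)
    (f : Fin r → MvPolynomial (Fin n) (MvPolynomial (Fin s) k)) :
    Set (Fin n ⊕ Fin s ⊕ Fin r → k) :=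
  {z | ∀ i, z (Sum.inr (Sum.inr i)) ≠ 0 ∧ z (Sum.inr (Sum.inr i)) ^ m i =
    eval (fun j => z (Sum.inl j)) (map (eval fun l => z (Sum.inr (Sum.inl l))) (f i))}

/-- `(Φ_0 : ... : Φ_N)` is a dominant rational map from the total space of the family to `X`,
defined where `D ≠ 0`, and generically finite on the members of the family: every `x_j` is there a
root of a nonzero polynomial whose coefficients are forms of equal degree in `Φ_0, ..., Φ_N` with
coefficients in `k[y]`. -/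
structure FamDom {n s r : ℕ} (m : Fin r → ℕ)
    (f : Fin r → MvPolynomial (Fin n) (MvPolynomial (Fin s) k))
    (X : Set (PP k N)) (Φ : Fin (N + 1) → MvPolynomial (Fin n ⊕ Fin s ⊕ Fin r) k)
    (D : MvPolynomial (Fin n ⊕ Fin s ⊕ Fin r) k) : Prop where
  maps : ∀ z ∈ FCov m f, eval z D ≠ 0 → ∃ h : vec Φ z ≠ 0, Projectivization.mk k (vec Φ z) h ∈ X
  alg : ∀ j : Fin n, ∃ (l d : ℕ) (Q : Fin l → MvPolynomial (Fin (N + 1)) (MvPolynomial (Fin s) k)),
    (∀ i, (Q i).IsHomogeneous d) ∧ ∀ z ∈ FCov m f, eval z D ≠ 0 →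
      ∑ i, eval (vec Φ z) (map (eval fun l => z (Sum.inr (Sum.inl l))) (Q i)) *
        z (Sum.inl j) ^ (i : ℕ) = 0 ∧
      ∃ i, eval (vec Φ z) (map (eval fun l => z (Sum.inr (Sum.inl l))) (Q i)) ≠ 0
  dense : ∀ Δ : Set (PP k N), IsZClosed Δ →
    (∀ z ∈ FCov m f, eval z D ≠ 0 → ∀ h : vec Φ z ≠ 0, Projectivization.mk k (vec Φ z) h ∈ Δ) →
    X ⊆ Δ

/-- substitution of constants for the parameters -/
noncomputable def spec {n s r : ℕ} (y : Fin s → k) :
    MvPolynomial (Fin n ⊕ Fin s ⊕ Fin r) k →ₐ[k] MvPolynomial (Fin n ⊕ Fin r) k :=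
  aeval (Sum.elim (fun j => X (Sum.inl j)) (Sum.elim (fun l => C (y l)) fun i => X (Sum.inr i)))

/-- the point of the total space -/
def tot {n s r : ℕ} (y : Fin s → k) (z : Fin n ⊕ Fin r → k) : Fin n ⊕ Fin s ⊕ Fin r → k :=
  Sum.elim (fun j => z (Sum.inl j)) (Sum.elim y fun i => z (Sum.inr i))

theorem eval_spec {n s r : ℕ} (y : Fin s → k) (z : Fin n ⊕ Fin r → k)
    (P : MvPolynomial (Fin n ⊕ Fin s ⊕ Fin r) k) : eval z (spec y P) = eval (tot y z) P := by
  have h : (aeval z : MvPolynomial (Fin n ⊕ Fin r) k →ₐ[k] k).comp (spec y) =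
      aeval (tot y z) := by
    apply MvPolynomial.algHom_ext
    rintro (j | l | i)
    · simp [spec, tot]
    · simp [spec, tot]
    · simp [spec, tot]
  have h1 := DFunLike.congr_fun h P
  rw [AlgHom.comp_apply, aeval_eq_eval, aeval_eq_eval] at h1
  exact h1

theorem vec_spec {n s r : ℕ} (y : Fin s → k) (z : Fin n ⊕ Fin r → k)
    (Φ : Fin (N + 1) → MvPolynomial (Fin n ⊕ Fin s ⊕ Fin r) k) :
    vec (fun j => spec y (Φ j)) z = vec Φ (tot y z) :=
  funext fun j => eval_spec y z (Φ j)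

theorem tdeg {n s : ℕ} (y : Fin s → k) (f : MvPolynomial (Fin n) (MvPolynomial (Fin s) k)) :
    (map (eval y) f).totalDegree ≤ f.totalDegree :=
  Finset.sup_mono (support_map_subset _ f)

theorem tot_mem {n s r : ℕ} (m : Fin r → ℕ)
    (f : Fin r → MvPolynomial (Fin n) (MvPolynomial (Fin s) k)) (y : Fin s → k)
    (z : Fin n ⊕ Fin r → k) : tot y z ∈ FCov m f ↔ z ∈ Cov m fun i => map (eval y) (f i) :=
  Iff.rfl

section reduce

variable {n s r : ℕ} {m : Fin r → ℕ} {f : Fin r → MvPolynomial (Fin n) (MvPolynomial (Fin s) k)}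
  {X : Set (PP k N)} {Φ : Fin (N + 1) → MvPolynomial (Fin n ⊕ Fin s ⊕ Fin r) k}
  {D : MvPolynomial (Fin n ⊕ Fin s ⊕ Fin r) k}

theorem FamDom.maps' (hΦ : FamDom m f X Φ D) (y : Fin s → k) :
    ∀ z ∈ Cov m (fun i => map (eval y) (f i)), eval z (spec y D) ≠ 0 →
      ∃ h : vec (fun j => spec y (Φ j)) z ≠ 0,
        Projectivization.mk k (vec (fun j => spec y (Φ j)) z) h ∈ X := by
  intro z hz hD
  rw [eval_spec] at hD
  rw [vec_spec]
  exact hΦ.maps _ ((tot_mem m f y z).2 hz) hD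

theorem FamDom.alg' (hΦ : FamDom m f X Φ D) (y : Fin s → k) :
    ∀ j : Fin n, ∃ (l d : ℕ) (Q : Fin l → MvPolynomial (Fin (N + 1)) k),
      (∀ i, (Q i).IsHomogeneous d) ∧ ∀ z ∈ Cov m (fun i => map (eval y) (f i)),
        eval z (spec y D) ≠ 0 →
        ∑ i, eval (vec (fun j => spec y (Φ j)) z) (Q i) * z (Sum.inl j) ^ (i : ℕ) = 0 ∧
          ∃ i, eval (vec (fun j => spec y (Φ j)) z) (Q i) ≠ 0 := by
  intro j
  obtain ⟨l, d, Q, hQ, h⟩ := hΦ.alg j
  refine ⟨l, d, fun i => map (eval y) (Q i), fun i => (hQ i).map _, fun z hz hD => ?_⟩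
  rw [eval_spec] at hD
  rw [vec_spec]
  exact h _ ((tot_mem m f y z).2 hz) hD

theorem FamDom.point (hΦ : FamDom m f X Φ D) {Δ : Set (PP k N)} (hΔ : IsZClosed Δ)
    (hX : ¬ X ⊆ Δ) : ∃ (y : Fin s → k) (z : Fin n ⊕ Fin r → k),
      z ∈ Cov m (fun i => map (eval y) (f i)) ∧ eval z (spec y D) ≠ 0 ∧
        ∃ h : vec (fun j => spec y (Φ j)) z ≠ 0,
          Projectivization.mk k (vec (fun j => spec y (Φ j)) z) h ∈ X ∧
          Projectivization.mk k (vec (fun j => spec y (Φ j)) z) h ∉ Δ := by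
  by_contra hcon
  push Not at hcon
  refine hX (hΦ.dense Δ hΔ fun z hz hD h => ?_)
  obtain ⟨y, hy⟩ : ∃ y : Fin s → k, y = fun l => z (Sum.inr (Sum.inl l)) := ⟨_, rfl⟩
  obtain ⟨z', hz'⟩ : ∃ z' : Fin n ⊕ Fin r → k, z' = Sum.elim (fun j => z (Sum.inl j))
    fun i => z (Sum.inr (Sum.inr i)) := ⟨_, rfl⟩
  have ht : tot y z' = z := by
    rw [hy, hz']
    funext a
    rcases a with j | l | i <;> rfl
  subst ht
  have hz1 := (tot_mem m f y z').1 hz
  have hD1 : eval z' (spec y D) ≠ 0 := by rwa [eval_spec]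
  have h1 := hcon y z' hz1 hD1
  have h2 := hΦ.maps' y z' hz1 hD1
  rw [vec_spec] at h1 h2
  exact h1 h h2.2

end reduce

theorem fmain [IsAlgClosed k] [CharZero k] {n s r : ℕ} (hn : 1 ≤ n) (m : Fin r → ℕ)
    (hm : ∀ i, 2 ≤ m i)
    (f : Fin r → MvPolynomial (Fin n) (MvPolynomial (Fin s) k)) (e : Fin r → ℕ)
    (hdeg : ∀ i, (f i).totalDegree ≤ m i * e i) (he : ∑ i, (m i - 1) * e i ≤ n + 1)
    (hcy : ∑ i, (m i - 1) * e i = n + 1 →
      (∃ i, e i ≠ 0 ∧ (3 ∣ m i ∨ 4 ∣ m i)) ∨ 2 ≤ ∑ i with 2 ∣ m i, e i)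
    (X : Set (PP k N)) (Φ : Fin (N + 1) → MvPolynomial (Fin n ⊕ Fin s ⊕ Fin r) k)
    (D : MvPolynomial (Fin n ⊕ Fin s ⊕ Fin r) k) (hΦ : FamDom m f X Φ D) :
    ¬ PseudoGeomHyp X := by
  rintro ⟨Δ, hΔ, hXΔ, hfin⟩
  obtain ⟨y, z, hz, hD, h, hX, hX'⟩ := hΦ.point hΔ hXΔ
  obtain ⟨L, hL, hinf⟩ := core hn m hm (fun i => map (eval y) (f i)) e
    (fun i => (tdeg y (f i)).trans (hdeg i)) he hcy X (fun j => spec y (Φ j)) (spec y D)
    (hΦ.maps' y) (hΦ.alg' y) z hz hD h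
  obtain ⟨hK, hk, htop⟩ := curveL_isFunctionField hL
  exact hinf (hfin L (place L) hK hk htop _ hX hX')

end Pool.Agent.H734R3.PG
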